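import Pool.Agent.H28.MZ.Targets
import Pool.Agent.Ratios.Contour

/-!
# (SH) contour shift across a simple pole.  helper58
-/

set_option autoImplicit false

open Complex MeasureTheory Set Filter Topology

namespace Pool.Agent.H58.MZ

open Pool.Agent.H28.MZ

lemma V_one : V 1 = 1 / 2 := by
  unfold V
  rw [Real.log_one]
  have h : ∫ v in Ioi (0 : ℝ), Real.exp (-(v ^ 2 / 4)) = Real.sqrt (Real.pi / (1 / 4)) / 2 := by
    rw [← integral_gaussian_Ioi (1 / 4)]
    refine setIntegral_congr_fun measurableSet_Ioi fun v _ => ?_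
    congr 1
    ring
  rw [h]
  have h2 : Real.sqrt (Real.pi / (1 / 4)) = 2 * Real.sqrt Real.pi := by
    rw [show Real.pi / (1 / 4) = 2 ^ 2 * Real.pi by ring, Real.sqrt_mul (by norm_num),
      Real.sqrt_sq (by norm_num)]
  rw [h2]
  have h3 : Real.sqrt Real.pi ≠ 0 := (Real.sqrt_pos.mpr Real.pi_pos).ne'
  field_simp

lemma half (hV : T_VV) (c : ℝ) (hc : 0 < c) :
    Integrable (fun v : ℝ => cexp ((c + v * I) ^ 2) / (c + v * I)) ∧
      ∫ v : ℝ, cexp ((c + v * I) ^ 2) / (c + v * I) = Real.pi := by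
  obtain ⟨h1, h2⟩ := hV.2.2.2.2 c 1 hc one_pos
  simp only [Real.log_one, ofReal_zero, mul_zero, Complex.exp_zero, one_mul] at h1 h2
  refine ⟨h1, ?_⟩
  rw [V_one] at h2
  have hpi : (Real.pi : ℂ) ≠ 0 := ofReal_ne_zero.mpr Real.pi_pos.ne'
  have h3 : (2 * Real.pi : ℂ) * ((1 / (2 * Real.pi) : ℝ) : ℂ) = 1 := by
    push_cast
    field_simp
  calc ∫ v : ℝ, cexp ((c + v * I) ^ 2) / (c + v * I)
      = ((2 * Real.pi : ℂ) * ((1 / (2 * Real.pi) : ℝ) : ℂ)) *
        ∫ v : ℝ, cexp ((c + v * I) ^ 2) / (c + v * I) := by rw [h3, one_mul]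
    _ = (2 * Real.pi : ℂ) * ((1 / 2 : ℝ) : ℂ) := by rw [mul_assoc, ← h2]
    _ = _ := by push_cast; ring

/-- the comparison integrals on the two sides of the pole -/
lemma right_side (hV : T_VV) (b : ℝ) (p : ℂ) (hb : p.re < b) :
    Integrable (fun t : ℝ => cexp (((b : ℂ) + t * I - p) ^ 2) / ((b : ℂ) + t * I - p)) ∧
      ∫ t : ℝ, cexp (((b : ℂ) + t * I - p) ^ 2) / ((b : ℂ) + t * I - p) = Real.pi := by
  obtain ⟨h1, h2⟩ := half hV (b - p.re) (by linarith)
  have e : ∀ t : ℝ, (b : ℂ) + t * I - p = ((b - p.re : ℝ) : ℂ) + ((t - p.im : ℝ) : ℂ) * I := by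
    intro t
    apply Complex.ext <;> simp
  simp only [e]
  refine ⟨h1.comp_sub_right p.im, ?_⟩
  rw [integral_sub_right_eq_self (μ := volume)
    (fun v : ℝ => cexp ((((b - p.re : ℝ) : ℂ) + v * I) ^ 2) / (((b - p.re : ℝ) : ℂ) + v * I)) p.im]
  exact h2

lemma left_side (hV : T_VV) (a : ℝ) (p : ℂ) (ha : a < p.re) :
    Integrable (fun t : ℝ => cexp (((a : ℂ) + t * I - p) ^ 2) / ((a : ℂ) + t * I - p)) ∧
      ∫ t : ℝ, cexp (((a : ℂ) + t * I - p) ^ 2) / ((a : ℂ) + t * I - p) = -Real.pi := by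
  obtain ⟨h1, h2⟩ := half hV (p.re - a) (by linarith)
  have e : ∀ t : ℝ, (a : ℂ) + t * I - p = -(((p.re - a : ℝ) : ℂ) + ((p.im - t : ℝ) : ℂ) * I) := by
    intro t
    apply Complex.ext <;> simp
  have e2 : ∀ t : ℝ, cexp (((a : ℂ) + t * I - p) ^ 2) / ((a : ℂ) + t * I - p) =
      -(cexp ((((p.re - a : ℝ) : ℂ) + ((p.im - t : ℝ) : ℂ) * I) ^ 2) /
        (((p.re - a : ℝ) : ℂ) + ((p.im - t : ℝ) : ℂ) * I)) := by
    intro t
    rw [e, neg_sq, div_neg]
  simp only [e2]
  refine ⟨(h1.comp_sub_left p.im).neg, ?_⟩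
  rw [integral_neg, integral_sub_left_eq_self
    (fun v : ℝ => cexp ((((p.re - a : ℝ) : ℂ) + v * I) ^ 2) / (((p.re - a : ℝ) : ℂ) + v * I))
    volume p.im, h2]

lemma norm_E_le (a b : ℝ) (p s : ℂ) (h1 : a ≤ s.re) (h2 : s.re ≤ b) (h3 : a < p.re)
    (h4 : p.re < b) : ‖cexp ((s - p) ^ 2)‖ ≤
      Real.exp ((b - a) ^ 2 + 1 + |p.im|) * Real.exp (-|s.im|) := by
  rw [Complex.norm_exp, ← Real.exp_add]
  apply Real.exp_le_exp.mpr
  have e : ((s - p) ^ 2).re = (s.re - p.re) ^ 2 - (s.im - p.im) ^ 2 := by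
    rw [sq]
    simp only [mul_re, sub_re, sub_im]
    ring
  rw [e]
  have h5 : (s.re - p.re) ^ 2 ≤ (b - a) ^ 2 := by
    apply sq_le_sq'
    · linarith
    · linarith
  have h6 : |s.im| ≤ |s.im - p.im| + |p.im| := by
    calc |s.im| = |(s.im - p.im) + p.im| := by ring_nf
      _ ≤ _ := abs_add_le _ _
  have h7 : |s.im - p.im| ≤ (s.im - p.im) ^ 2 + 1 := by
    rw [← sq_abs]
    nlinarith [abs_nonneg (s.im - p.im), sq_nonneg (|s.im - p.im| - 1)]
  linarith

theorem sh (hV : T_VV) : T_SH := by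
  intro F a b M p hap hpb hF hb
  have hab : a < b := hap.trans hpb
  set E : ℂ → ℂ := fun s => cexp ((s - p) ^ 2) with hE
  set H : ℂ → ℂ := fun s => F s - F p * E s with hH
  have hEp : E p = 1 := by simp [hE]
  have hHp : H p = 0 := by simp [hH, hEp]
  have hEd : Differentiable ℂ E := by
    intro s
    simp only [hE]
    fun_prop
  have hHd : ∀ s : ℂ, a ≤ s.re → s.re ≤ b → DifferentiableAt ℂ H s := fun s h1 h2 =>
    (hF s h1 h2).sub ((hEd s).const_mul _)
  set G : ℂ → ℂ := dslope H p with hG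
  have hGne : ∀ s : ℂ, s ≠ p → G s = F s / (s - p) - F p * (E s / (s - p)) := by
    intro s hs
    rw [hG, dslope_of_ne _ hs, slope_def_field, hHp, sub_zero]
    simp only [hH]
    rw [sub_div, mul_div_assoc]
  have hGd : ∀ s : ℂ, a ≤ s.re → s.re ≤ b → DifferentiableAt ℂ G s := by
    intro s h1 h2
    by_cases hs : s = p
    · subst hs
      have hopen : IsOpen {z : ℂ | a < z.re ∧ z.re < b} :=
        (isOpen_lt continuous_const continuous_re).inter (isOpen_lt continuous_re continuous_const)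
      have hmem : {z : ℂ | a < z.re ∧ z.re < b} ∈ 𝓝 s := hopen.mem_nhds ⟨hap, hpb⟩
      have h3 : DifferentiableOn ℂ H {z : ℂ | a < z.re ∧ z.re < b} := fun z hz =>
        (hHd z hz.1.le hz.2.le).differentiableWithinAt
      exact ((Complex.differentiableOn_dslope hmem).mpr h3).differentiableAt hmem
    · rw [hG, differentiableAt_dslope_of_ne hs]
      exact hHd s h1 h2
  have hM0 : 0 ≤ M := by
    have h := hb p hap.le hpb.le
    have h0 := norm_nonneg (F p)
    by_contra hM
    push Not at hM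
    have : M * Real.exp (-|p.im|) < 0 := mul_neg_of_neg_of_pos hM (Real.exp_pos _)
    linarith
  -- the bound
  obtain ⟨K1, hK1⟩ : ∃ K : ℝ, ∀ s : ℂ, a ≤ s.re → s.re ≤ b → ‖s - p‖ ≤ 1 → ‖G s‖ ≤ K := by
    have hcomp : IsCompact ({s : ℂ | a ≤ s.re ∧ s.re ≤ b} ∩ Metric.closedBall p 1) :=
      IsCompact.inter_left (isCompact_closedBall p 1)
        ((isClosed_le continuous_const continuous_re).inter
          (isClosed_le continuous_re continuous_const))
    have hcont : ContinuousOn G ({s : ℂ | a ≤ s.re ∧ s.re ≤ b} ∩ Metric.closedBall p 1) :=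
      fun s hs => (hGd s hs.1.1 hs.1.2).continuousAt.continuousWithinAt
    obtain ⟨K, hK⟩ := hcomp.exists_bound_of_continuousOn hcont
    exact ⟨K, fun s h1 h2 h3 => hK s ⟨⟨h1, h2⟩, by rwa [Metric.mem_closedBall, dist_eq_norm]⟩⟩
  have hK10 : 0 ≤ K1 := (norm_nonneg _).trans (hK1 p hap.le hpb.le (by simp))
  set C1 : ℝ := Real.exp ((b - a) ^ 2 + 1 + |p.im|) with hC1
  set C : ℝ := K1 * Real.exp (|p.im| + 1) + (M + ‖F p‖ * C1) with hC
  have hGb : ∀ s : ℂ, a ≤ s.re → s.re ≤ b → ‖G s‖ ≤ C * Real.exp (-(1 * |s.im|)) := by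
    intro s h1 h2
    rw [one_mul]
    have hpos : 0 < Real.exp (-|s.im|) := Real.exp_pos _
    rcases le_or_gt ‖s - p‖ 1 with h | h
    · have h5 : |s.im| ≤ |p.im| + 1 := by
        have h6 : |s.im - p.im| ≤ ‖s - p‖ := by
          have := Complex.abs_im_le_norm (s - p)
          simpa using this
        calc |s.im| = |(s.im - p.im) + p.im| := by ring_nf
          _ ≤ |s.im - p.im| + |p.im| := abs_add_le _ _
          _ ≤ _ := by linarith
      have h7 : 1 ≤ Real.exp (|p.im| + 1) * Real.exp (-|s.im|) := by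
        rw [← Real.exp_add]
        apply Real.one_le_exp
        linarith
      calc ‖G s‖ ≤ K1 := hK1 s h1 h2 h
        _ = K1 * 1 := by ring
        _ ≤ K1 * (Real.exp (|p.im| + 1) * Real.exp (-|s.im|)) := by gcongr
        _ = K1 * Real.exp (|p.im| + 1) * Real.exp (-|s.im|) := by ring
        _ ≤ C * Real.exp (-|s.im|) := by
          apply mul_le_mul_of_nonneg_right _ hpos.le
          rw [hC]
          have : 0 ≤ M + ‖F p‖ * C1 := by positivity
          linarith
    · have hne : s ≠ p := by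
        rintro rfl
        simp at h
        linarith
      have e : G s = H s / (s - p) := by
        rw [hG, dslope_of_ne _ hne, slope_def_field, hHp, sub_zero]
      rw [e, norm_div]
      have h8 : ‖H s‖ ≤ (M + ‖F p‖ * C1) * Real.exp (-|s.im|) := by
        calc ‖H s‖ ≤ ‖F s‖ + ‖F p * E s‖ := norm_sub_le _ _
          _ ≤ M * Real.exp (-|s.im|) + ‖F p‖ * (C1 * Real.exp (-|s.im|)) := by
            rw [norm_mul]
            have := norm_E_le a b p s h1 h2 hap hpb
            have := hb s h1 h2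
            gcongr
          _ = _ := by ring
      calc ‖H s‖ / ‖s - p‖ ≤ ‖H s‖ / 1 := by
            apply div_le_div_of_nonneg_left (norm_nonneg _) one_pos h.le
        _ = ‖H s‖ := div_one _
        _ ≤ _ := h8
        _ ≤ C * Real.exp (-|s.im|) := by
          apply mul_le_mul_of_nonneg_right _ hpos.le
          rw [hC]
          have : 0 ≤ K1 * Real.exp (|p.im| + 1) := by positivity
          linarith
  have hshift := Pool.Agent.Ratios.integral_vertical_shift G a b hab.le C 1 one_pos hGd hGb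
  -- integrability of the F part
  have hFint : ∀ c : ℝ, a ≤ c → c ≤ b → c ≠ p.re →
      Integrable (fun t : ℝ => F (c + t * I) / (c + t * I - p)) := by
    intro c h1 h2 h3
    have hne : ∀ t : ℝ, (c : ℂ) + t * I - p ≠ 0 := by
      intro t h
      apply h3
      have := congrArg Complex.re h
      simp at this
      linarith
    have hcont : Continuous (fun t : ℝ => F (c + t * I) / (c + t * I - p)) := by
      rw [continuous_iff_continuousAt]
      intro t
      have hc1 : ContinuousAt F ((c : ℂ) + t * I) :=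
        (hF _ (by simpa using h1) (by simpa using h2)).continuousAt
      have hc2 : ContinuousAt (fun t : ℝ => F (c + t * I)) t :=
        ContinuousAt.comp (f := fun t : ℝ => (c : ℂ) + t * I) hc1 (by fun_prop)
      exact hc2.div (by fun_prop) (hne t)
    refine (((Pool.Agent.Ratios.integrable_exp_neg_mul_abs 1 one_pos).const_mul
      (M / |c - p.re|))).mono' hcont.aestronglyMeasurable ?_
    filter_upwards with t
    rw [norm_div, one_mul]
    have hpos : 0 < |c - p.re| := abs_pos.mpr (sub_ne_zero.mpr h3)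
    have h4 : |c - p.re| ≤ ‖(c : ℂ) + t * I - p‖ := by
      have := Complex.abs_re_le_norm ((c : ℂ) + t * I - p)
      simpa using this
    have h5 := hb (c + t * I) (by simpa using h1) (by simpa using h2)
    have h6 : ((c : ℂ) + t * I).im = t := by simp
    rw [h6] at h5
    calc ‖F (c + t * I)‖ / ‖(c : ℂ) + t * I - p‖ ≤ (M * Real.exp (-|t|)) / |c - p.re| := by
          gcongr
      _ = _ := by ring
  have hbi := hFint b hab.le le_rfl hpb.ne'
  have hai := hFint a le_rfl hab.le hap.ne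
  obtain ⟨hrb, hrb2⟩ := right_side hV b p hpb
  obtain ⟨hla, hla2⟩ := left_side hV a p hap
  have hGb2 : ∫ t : ℝ, G (b + t * I) = (∫ t : ℝ, F (b + t * I) / (b + t * I - p)) -
      F p * Real.pi := by
    rw [← hrb2, ← integral_const_mul, ← integral_sub hbi (hrb.const_mul _)]
    congr 1
    funext t
    apply hGne
    intro h
    have := congrArg Complex.re h
    simp at this
    linarith
  have hGa2 : ∫ t : ℝ, G (a + t * I) = (∫ t : ℝ, F (a + t * I) / (a + t * I - p)) -
      F p * (-Real.pi) := by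
    rw [← hla2, ← integral_const_mul, ← integral_sub hai (hla.const_mul _)]
    congr 1
    funext t
    apply hGne
    intro h
    have := congrArg Complex.re h
    simp at this
    linarith
  rw [hGb2, hGa2] at hshift
  have hpi : (Real.pi : ℂ) ≠ 0 := ofReal_ne_zero.mpr Real.pi_pos.ne'
  generalize (∫ t : ℝ, F (b + t * I) / (b + t * I - p)) = JB at hshift ⊢
  generalize (∫ t : ℝ, F (a + t * I) / (a + t * I - p)) = JA at hshift ⊢
  push_cast
  field_simp
  linear_combination hshift

end Pool.Agent.H58.MZ
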