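import Pool.Agent.H58.MZ.Base

/-!
# Cauchy's formula on a rectangle, truncation of line integrals.  helper58
-/

set_option autoImplicit false

open Complex MeasureTheory Set Filter Topology

namespace Pool.Agent.H58.MZ

open Pool.Agent.H28.MZ

lemma rect_exact (hRC : T_RC) (Φ : ℂ → ℂ) (a b H : ℝ) (ha : a < 0) (hb : 0 < b) (hH : 0 < H)
    (hd : ∀ s : ℂ, a ≤ s.re → s.re ≤ b → -H ≤ s.im → s.im ≤ H → DifferentiableAt ℂ Φ s) :
    (∫ x in a..b, Φ (x + (-H : ℝ) * I) / (x + (-H : ℝ) * I)) +
      I * (∫ t in (-H)..H, Φ (b + t * I) / (b + t * I)) -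
      (∫ x in a..b, Φ (x + H * I) / (x + H * I)) -
      I * (∫ t in (-H)..H, Φ (a + t * I) / (a + t * I)) = 2 * Real.pi * I * Φ 0 := by
  have hab : a < b := ha.trans hb
  have h1 := hRC (fun _ => 1) a b (-H) H 0 (differentiable_const _) (by simpa using ha)
    (by simpa using hb) (by simpa using hH) (by simpa using hH)
  simp only [sub_zero, mul_one] at h1
  set G : ℂ → ℂ := dslope Φ 0 with hG
  have hGd : ∀ s : ℂ, a ≤ s.re → s.re ≤ b → -H ≤ s.im → s.im ≤ H → DifferentiableAt ℂ G s := by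
    intro s h2 h3 h4 h5
    by_cases hs : s = 0
    · subst hs
      have hopen : IsOpen ({z : ℂ | a < z.re ∧ z.re < b} ∩ {z : ℂ | -H < z.im ∧ z.im < H}) :=
        ((isOpen_lt continuous_const continuous_re).inter
          (isOpen_lt continuous_re continuous_const)).inter
        ((isOpen_lt continuous_const continuous_im).inter
          (isOpen_lt continuous_im continuous_const))
      have hmem : ({z : ℂ | a < z.re ∧ z.re < b} ∩ {z : ℂ | -H < z.im ∧ z.im < H}) ∈ 𝓝 (0 : ℂ) :=
        hopen.mem_nhds ⟨⟨by simpa using ha, by simpa using hb⟩, ⟨by simpa using hH, by simpa using hH⟩⟩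
      have h6 : DifferentiableOn ℂ Φ
          ({z : ℂ | a < z.re ∧ z.re < b} ∩ {z : ℂ | -H < z.im ∧ z.im < H}) := fun z hz =>
        (hd z hz.1.1.le hz.1.2.le hz.2.1.le hz.2.2.le).differentiableWithinAt
      exact ((Complex.differentiableOn_dslope hmem).mpr h6).differentiableAt hmem
    · rw [hG, differentiableAt_dslope_of_ne hs]
      exact hd s h2 h3 h4 h5
  have hrect := integral_boundary_rect_eq_zero_of_differentiableOn G (⟨a, -H⟩ : ℂ) (⟨b, H⟩ : ℂ) (by
    intro z hz
    have hz1 := hz.1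
    have hz2 := hz.2
    simp only [uIcc_of_le hab.le, mem_preimage, mem_Icc] at hz1
    simp only [uIcc_of_le (by linarith : -H ≤ H), mem_preimage, mem_Icc] at hz2
    exact (hGd z hz1.1 hz1.2 hz2.1 hz2.2).differentiableWithinAt)
  simp only [smul_eq_mul] at hrect
  have hne : ∀ s : ℂ, s ≠ 0 → G s = Φ s / s - Φ 0 * (1 / s) := by
    intro s hs
    rw [hG, dslope_of_ne _ hs, slope_def_field, sub_zero]
    ring
  -- the four sides
  have side : ∀ (γ : ℝ → ℂ) (u v : ℝ), u ≤ v → Continuous γ → (∀ x ∈ Icc u v, γ x ≠ 0) →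
      (∀ x ∈ Icc u v, DifferentiableAt ℂ Φ (γ x)) →
      ∫ x in u..v, G (γ x) = (∫ x in u..v, Φ (γ x) / γ x) - Φ 0 * ∫ x in u..v, 1 / γ x := by
    intro γ u v huv hγ hγ0 hΦ
    have c1 : ContinuousOn (fun x : ℝ => Φ (γ x) / γ x) (uIcc u v) := by
      rw [uIcc_of_le huv]
      intro x hx
      have h7 : ContinuousAt (fun x : ℝ => Φ (γ x)) x :=
        ContinuousAt.comp (f := γ) (hΦ x hx).continuousAt hγ.continuousAt
      exact (h7.div hγ.continuousAt (hγ0 x hx)).continuousWithinAt
    have c2 : ContinuousOn (fun x : ℝ => Φ 0 * (1 / γ x)) (uIcc u v) := by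
      rw [uIcc_of_le huv]
      intro x hx
      exact (continuousAt_const.mul (continuousAt_const.div hγ.continuousAt
        (hγ0 x hx))).continuousWithinAt
    rw [← intervalIntegral.integral_const_mul,
      ← intervalIntegral.integral_sub c1.intervalIntegrable c2.intervalIntegrable]
    apply intervalIntegral.integral_congr
    intro x hx
    rw [uIcc_of_le huv] at hx
    exact hne _ (hγ0 x hx)
  have imne : ∀ (y : ℝ), y ≠ 0 → ∀ x : ℝ, (x : ℂ) + y * I ≠ 0 := by
    intro y hy x h
    apply hy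
    have := congrArg Complex.im h
    simpa using this
  have sB := side (fun x : ℝ => (x : ℂ) + (-H : ℝ) * I) a b hab.le (by fun_prop)
    (fun x _ => imne (-H) (by linarith) x)
    (fun x hx => hd _ (by simpa using hx.1) (by simpa using hx.2) (by simp) (by simp; linarith))
  have sT := side (fun x : ℝ => (x : ℂ) + (H : ℝ) * I) a b hab.le (by fun_prop)
    (fun x _ => imne H hH.ne' x)
    (fun x hx => hd _ (by simpa using hx.1) (by simpa using hx.2) (by simp; linarith) (by simp))
  have sR := side (fun t : ℝ => (b : ℂ) + t * I) (-H) H (by linarith) (by fun_prop)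
    (fun t _ => ne_zero_of_re hb.ne' t)
    (fun t ht => hd _ (by simp; linarith) (by simp) (by simpa using ht.1) (by simpa using ht.2))
  have sL := side (fun t : ℝ => (a : ℂ) + t * I) (-H) H (by linarith) (by fun_prop)
    (fun t _ => ne_zero_of_re ha.ne t)
    (fun t ht => hd _ (by simp) (by simp; linarith) (by simpa using ht.1) (by simpa using ht.2))
  rw [sB, sT, sR, sL] at hrect
  linear_combination hrect + Φ 0 * h1

/-- truncated Cauchy formula -/
lemma rect_cauchy (hRC : T_RC) (Φ : ℂ → ℂ) (a b H B : ℝ) (ha : a < 0) (hb : 0 < b) (hH : 1 ≤ H)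
    (hd : ∀ s : ℂ, a ≤ s.re → s.re ≤ b → -H ≤ s.im → s.im ≤ H → DifferentiableAt ℂ Φ s)
    (hB : ∀ s : ℂ, a ≤ s.re → s.re ≤ b → |s.im| = H → ‖Φ s‖ ≤ B) :
    ‖((1 / (2 * Real.pi) : ℝ) : ℂ) * (∫ t in (-H)..H, Φ (b + t * I) / (b + t * I)) -
      ((1 / (2 * Real.pi) : ℝ) : ℂ) * (∫ t in (-H)..H, Φ (a + t * I) / (a + t * I)) - Φ 0‖ ≤
      (b - a) * B := by
  have hab : a < b := ha.trans hb
  have hH0 : 0 < H := by linarith
  have h := rect_exact hRC Φ a b H ha hb hH0 hd
  have hpi : (Real.pi : ℂ) ≠ 0 := ofReal_ne_zero.mpr Real.pi_pos.ne'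
  have hB0 : 0 ≤ B := (norm_nonneg _).trans (hB (0 + H * I) (by simpa using ha.le)
    (by simpa using hb.le) (by simp [abs_of_pos hH0]))
  have bnd : ∀ y : ℝ, |y| = H → ‖∫ x in a..b, Φ (x + y * I) / (x + y * I)‖ ≤ B * (b - a) := by
    intro y hy
    have := intervalIntegral.norm_integral_le_of_norm_le_const (a := a) (b := b) (C := B)
      (f := fun x : ℝ => Φ (x + y * I) / (x + y * I)) (by
        intro x hx
        rw [uIoc_of_le hab.le] at hx
        rw [norm_div]
        have h1 : 1 ≤ ‖(x : ℂ) + y * I‖ := by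
          have := Complex.abs_im_le_norm ((x : ℂ) + y * I)
          simp at this
          linarith
        have h2 := hB ((x : ℂ) + y * I) (by simpa using hx.1.le) (by simpa using hx.2)
          (by simpa using hy)
        calc _ ≤ B / 1 := by gcongr
          _ = B := div_one _)
    rwa [abs_of_pos (by linarith)] at this
  have b1 := bnd (-H) (by rw [abs_neg, abs_of_pos hH0])
  have b2 := bnd H (abs_of_pos hH0)
  generalize (∫ t in (-H)..H, Φ (b + t * I) / (b + t * I)) = R at h ⊢
  generalize (∫ t in (-H)..H, Φ (a + t * I) / (a + t * I)) = L at h ⊢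
  generalize (∫ x in a..b, Φ (x + (-H : ℝ) * I) / (x + (-H : ℝ) * I)) = D at h b1 ⊢
  generalize (∫ x in a..b, Φ (x + H * I) / (x + H * I)) = U at h b2 ⊢
  have e : ((1 / (2 * Real.pi) : ℝ) : ℂ) * R - ((1 / (2 * Real.pi) : ℝ) : ℂ) * L - Φ 0 =
      ((1 / (2 * Real.pi) : ℝ) : ℂ) * (I * (D - U)) := by
    have hI : I * I = -1 := I_mul_I
    have h5 : R - L - 2 * Real.pi * Φ 0 = I * (D - U) := by
      linear_combination (-I) * h + (R - L - 2 * Real.pi * Φ 0) * (1 + I * I - I * I - 1) +
        (R - L - 2 * Real.pi * Φ 0) * (hI)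
    rw [← h5]
    push_cast
    field_simp
  rw [e, norm_mul, norm_mul, norm_I, one_mul]
  have h3 : ‖((1 / (2 * Real.pi) : ℝ) : ℂ)‖ ≤ 1 / 2 := by
    rw [norm_real, Real.norm_eq_abs, abs_of_pos (by positivity)]
    apply div_le_div_of_nonneg_left (by norm_num) (by norm_num)
    have := Real.pi_gt_three
    linarith
  calc _ ≤ 1 / 2 * (B * (b - a) + B * (b - a)) := by
        have := norm_sub_le D U
        gcongr
        linarith
    _ = _ := by ring

/-- truncation of a line integral against the kernel -/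
lemma truncate (f : ℝ → ℂ) (c H S : ℝ) (hc : c ≠ 0) (hH : 0 ≤ H) (hf : Continuous f)
    (hS : ∀ v, ‖f v‖ ≤ S) :
    ‖(∫ v : ℝ, f v * ker c v) - ∫ v in (-H)..H, f v * ker c v‖ ≤
      S * (Real.exp (c ^ 2) / |c| * Real.exp (-(H ^ 2 / 2)) * Real.sqrt (Real.pi / (1 / 2))) := by
  have hS0 : 0 ≤ S := (norm_nonneg _).trans (hS 0)
  have hint : Integrable (fun v => f v * ker c v) := by
    refine ((integrable_ker c hc).norm.const_mul S).mono'
      (hf.mul (continuous_ker c hc)).aestronglyMeasurable (Eventually.of_forall fun v => ?_)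
    rw [norm_mul]
    exact mul_le_mul_of_nonneg_right (hS v) (norm_nonneg _)
  rw [intervalIntegral.integral_of_le (by linarith), ← integral_add_compl
    (measurableSet_Ioc : MeasurableSet (Ioc (-H) H)) hint, add_sub_cancel_left]
  set K : ℝ := S * (Real.exp (c ^ 2) / |c| * Real.exp (-(H ^ 2 / 2))) with hK
  have hK0 : 0 ≤ K := by positivity
  have hgi : Integrable (fun v : ℝ => K * Real.exp (-(1 / 2) * v ^ 2)) :=
    (integrable_exp_neg_mul_sq (b := 1 / 2) (by norm_num)).const_mul K
  have h1 : ‖∫ v in (Ioc (-H) H)ᶜ, f v * ker c v‖ ≤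
      ∫ v in (Ioc (-H) H)ᶜ, K * Real.exp (-(1 / 2) * v ^ 2) := by
    refine norm_integral_le_of_norm_le hgi.integrableOn ?_
    filter_upwards [ae_restrict_mem measurableSet_Ioc.compl] with v hv
    have hvH : H ^ 2 ≤ v ^ 2 := by
      rw [← sq_abs v]
      apply pow_le_pow_left₀ hH
      by_contra hlt
      push Not at hlt
      apply hv
      have := abs_lt.mp hlt
      exact ⟨this.1, this.2.le⟩
    rw [norm_mul]
    calc ‖f v‖ * ‖ker c v‖ ≤ S * (Real.exp (c ^ 2) / |c| * Real.exp (-v ^ 2)) := by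
          have := hS v
          have := norm_ker_le c v hc
          gcongr
      _ ≤ S * (Real.exp (c ^ 2) / |c| * (Real.exp (-(H ^ 2 / 2)) *
            Real.exp (-(1 / 2) * v ^ 2))) := by
          rw [← Real.exp_add (-(H ^ 2 / 2))]
          gcongr
          linarith
      _ = _ := by rw [hK]; ring
  have h2 : ∫ v in (Ioc (-H) H)ᶜ, K * Real.exp (-(1 / 2) * v ^ 2) ≤
      ∫ v : ℝ, K * Real.exp (-(1 / 2) * v ^ 2) := by
    apply setIntegral_le_integral hgi
    exact Eventually.of_forall fun v => by positivity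
  have h3 : ∫ v : ℝ, K * Real.exp (-(1 / 2) * v ^ 2) = K * Real.sqrt (Real.pi / (1 / 2)) := by
    rw [integral_const_mul, integral_gaussian]
  rw [h3] at h2
  calc _ ≤ _ := h1
    _ ≤ _ := h2
    _ = _ := by rw [hK]; ring

end Pool.Agent.H58.MZ
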