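import Pool.Agent.H58.MZ.Lser

/-!
# (AF) approximate functional equation for `|L|²`.  helper58
-/

set_option autoImplicit false

open Complex MeasureTheory Set Filter Topology

namespace Pool.Agent.H58.MZ

open Pool.Agent.H28.MZ
open Pool.Agent.H23.GLH (PrimChar)
open Pool.Agent.H74.LI (bar)

/-- `G(z) = L(s₀+z) \bar L(\bar s₀+z)` -/
noncomputable def GG (π : PrimChar) (σ t : ℝ) (z : ℂ) : ℂ :=
  π.L (σ + z + t * I) * (bar π).L (σ + z - t * I)

lemma GG_zero (π : PrimChar) (σ t : ℝ) (ht : 0 < t) :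
    GG π σ t 0 = ((‖π.L (σ + t * I)‖ ^ 2 : ℝ) : ℂ) := by
  unfold GG
  rw [add_zero]
  have h1 : ((σ : ℂ) + t * I) ≠ 1 := by
    intro h
    have := congrArg Complex.im h
    simp at this
    linarith
  have h2 := Lbar_conj π h1
  have h3 : (starRingEnd ℂ) ((σ : ℂ) + t * I) = (σ : ℂ) - t * I := by
    rw [map_add, map_mul, conj_ofReal, conj_ofReal, conj_I]
    ring
  rw [h3] at h2
  rw [h2, mul_conj, normSq_eq_norm_sq]

/-- the functional equation of the product -/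
lemma GG_neg (π : PrimChar) : ∃ κ : ℝ, (κ = 0 ∨ κ = 1) ∧ ∀ (σ t : ℝ) (z : ℂ), |z.im| < t →
    GG π σ t (-z) = cexp ((1 - 2 * σ + 2 * z) * Real.log π.q) * Rf κ (1 - σ + z) t *
      GG π (1 - σ) t z := by
  haveI := π.q_ne
  obtain ⟨ε, κ, hε, hκ, hfe⟩ := fe2 π
  refine ⟨κ, hκ, ?_⟩
  intro σ t z hz
  have hz2 := abs_lt.mp hz
  set A : ℂ := 1 - σ + z with hA
  have hAim : A.im = z.im := by simp [hA]
  have i1 : (A + t * I).im ≠ 0 := by
    simp only [add_im, hAim, mul_im, ofReal_re, I_im, ofReal_im, I_re]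
    intro h
    linarith
  have i2 : (A - t * I).im ≠ 0 := by
    simp only [sub_im, hAim, mul_im, ofReal_re, I_im, ofReal_im, I_re]
    intro h
    linarith
  have f1 := (hfe _ i1).1
  have f2 := (hfe _ i2).2
  have e1 : 1 - (A + t * I) = (σ : ℂ) + -z - t * I := by rw [hA]; ring
  have e2 : 1 - (A - t * I) = (σ : ℂ) + -z + t * I := by rw [hA]; ring
  rw [e1] at f1
  rw [e2] at f2
  have hεε : ε * (starRingEnd ℂ) ε = 1 := by
    rw [mul_conj, normSq_eq_norm_sq, hε]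
    norm_num
  have hR : Rf κ A t = gc κ (A + t * I) * gc κ (A - t * I) := rfl
  have hGA : GG π (1 - σ) t z = π.L (A + t * I) * (bar π).L (A - t * I) := by
    unfold GG
    rw [hA]
    push_cast
    rfl
  rw [hR, hGA]
  unfold GG
  have hexp : cexp ((1 / 2 - (A + t * I)) * Real.log π.q) *
      cexp ((1 / 2 - (A - t * I)) * Real.log π.q) *
      cexp ((1 - 2 * σ + 2 * z) * Real.log π.q) = 1 := by
    rw [← Complex.exp_add, ← Complex.exp_add, hA]
    have : (1 / 2 - (1 - σ + z + t * I)) * (Real.log π.q : ℂ) +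
        (1 / 2 - (1 - σ + z - t * I)) * Real.log π.q + (1 - 2 * σ + 2 * z) * Real.log π.q = 0 := by
      ring
    rw [this, Complex.exp_zero]
  calc π.L (σ + -z + t * I) * (bar π).L (σ + -z - t * I)
      = (ε * (starRingEnd ℂ) ε) * (cexp ((1 / 2 - (A + t * I)) * Real.log π.q) *
          cexp ((1 / 2 - (A - t * I)) * Real.log π.q) *
          cexp ((1 - 2 * σ + 2 * z) * Real.log π.q)) *
          (π.L (σ + -z + t * I) * (bar π).L (σ + -z - t * I)) := by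
        rw [hεε, hexp]
        ring
    _ = cexp ((1 - 2 * σ + 2 * z) * Real.log π.q) *
        (ε * cexp ((1 / 2 - (A + t * I)) * Real.log π.q) * (bar π).L (σ + -z - t * I)) *
        ((starRingEnd ℂ) ε * cexp ((1 / 2 - (A - t * I)) * Real.log π.q) *
          π.L (σ + -z + t * I)) := by ring
    _ = _ := by
        rw [← f1, ← f2]
        ring

/-- the integral over the line `Re z = c` is a smooth double sum -/
lemma line_SS (hV : T_VV) (π : PrimChar) (s ξ t c : ℝ) (hξ : 0 < ξ) (hc : 0 < c)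
    (hs : 1 < s + c) :
    Continuous (fun v : ℝ => cexp (-((c : ℂ) + v * I) * Real.log ξ) * GG π s t (c + v * I)) ∧
    (∀ v : ℝ, ‖cexp (-((c : ℂ) + v * I) * Real.log ξ) * GG π s t (c + v * I)‖ ≤
      ξ ^ (-c) * Dz (s + c) ^ 2) ∧
    SS π s ξ t = (1 / (2 * Real.pi) : ℝ) *
      ∫ v : ℝ, cexp (-((c : ℂ) + v * I) * Real.log ξ) * GG π s t (c + v * I) * ker c v := by
  obtain ⟨h1, h2⟩ := summable_aa π s ξ t c hξ hs
  obtain ⟨m1, m2, m3, m4, m5⟩ := mellin_sum hV (aa π s t) (fun p => (p.1 : ℝ) * p.2 * ξ) c hc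
    (aa_or π s ξ t hξ) h1
  have e : ∀ v : ℝ, ∑' p : ℕ × ℕ, aa π s t p * cexp (-((c : ℂ) + v * I) *
      Real.log ((p.1 : ℝ) * p.2 * ξ)) =
      cexp (-((c : ℂ) + v * I) * Real.log ξ) * GG π s t (c + v * I) := by
    intro v
    rw [prodL π s ξ t _ hξ (by simpa using hs)]
    rfl
  simp only [e] at m3 m4 m5
  refine ⟨m4, fun v => (m3 v).trans h2, ?_⟩
  rw [SS_eq, m5]

lemma interval_ker_norm (f : ℝ → ℂ) (c H S : ℝ) (hc : c ≠ 0) (hH : 0 ≤ H)
    (hS : ∀ v, |v| ≤ H → ‖f v‖ ≤ S * Real.exp (v ^ 2 / 2)) (hS0 : 0 ≤ S) :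
    ‖∫ v in (-H)..H, f v * ker c v‖ ≤
      S * (Real.exp (c ^ 2) / |c| * Real.sqrt (Real.pi / (1 / 2))) := by
  set K : ℝ := S * (Real.exp (c ^ 2) / |c|) with hK
  have hK0 : 0 ≤ K := by positivity
  have hgi : Integrable (fun v : ℝ => K * Real.exp (-(1 / 2) * v ^ 2)) :=
    (integrable_exp_neg_mul_sq (b := 1 / 2) (by norm_num)).const_mul K
  rw [intervalIntegral.integral_of_le (by linarith)]
  have h1 : ‖∫ v in Ioc (-H) H, f v * ker c v‖ ≤
      ∫ v in Ioc (-H) H, K * Real.exp (-(1 / 2) * v ^ 2) := by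
    refine norm_integral_le_of_norm_le hgi.integrableOn ?_
    filter_upwards [ae_restrict_mem measurableSet_Ioc] with v hv
    rw [norm_mul]
    have h2 := hS v (abs_le.mpr ⟨hv.1.le, hv.2⟩)
    have h3 := norm_ker_le c v hc
    calc ‖f v‖ * ‖ker c v‖ ≤ (S * Real.exp (v ^ 2 / 2)) *
          (Real.exp (c ^ 2) / |c| * Real.exp (-v ^ 2)) := by gcongr
      _ = K * (Real.exp (v ^ 2 / 2) * Real.exp (-v ^ 2)) := by rw [hK]; ring
      _ = _ := by
        rw [← Real.exp_add]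
        congr 2
        ring
  have h2 : ∫ v in Ioc (-H) H, K * Real.exp (-(1 / 2) * v ^ 2) ≤
      ∫ v : ℝ, K * Real.exp (-(1 / 2) * v ^ 2) := by
    apply setIntegral_le_integral hgi
    exact Eventually.of_forall fun v => by positivity
  have h3 : ∫ v : ℝ, K * Real.exp (-(1 / 2) * v ^ 2) = K * Real.sqrt (Real.pi / (1 / 2)) := by
    rw [integral_const_mul, integral_gaussian]
  rw [h3] at h2
  calc _ ≤ _ := h1
    _ ≤ _ := h2
    _ = _ := by rw [hK]; ring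

/-- powers are absorbed by a Gaussian -/
lemma absorb (B : ℝ) : ∃ K : ℝ, 0 < K ∧ ∀ t : ℝ, 0 ≤ t →
    (1 + 3 * t) ^ B * Real.exp (-(t ^ 2 / 8)) ≤ K * Real.exp (-(t ^ 2 / 16)) := by
  obtain ⟨K, hK, h⟩ := rpow_le_exp B
  refine ⟨K * Real.exp 36, by positivity, ?_⟩
  intro t ht
  have h1 := h (3 * t) (by positivity)
  calc (1 + 3 * t) ^ B * Real.exp (-(t ^ 2 / 8))
      ≤ (K * Real.exp (3 * t)) * Real.exp (-(t ^ 2 / 8)) := by gcongr
    _ = K * (Real.exp (3 * t) * Real.exp (-(t ^ 2 / 8))) := by ring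
    _ ≤ K * (Real.exp 36 * Real.exp (-(t ^ 2 / 16))) := by
        rw [← Real.exp_add, ← Real.exp_add]
        refine mul_le_mul_of_nonneg_left (Real.exp_le_exp.mpr ?_) hK.le
        nlinarith [sq_nonneg (t - 24)]
    _ = _ := by ring

lemma gauss_const_pos : 0 < Real.sqrt (Real.pi / (1 / 2)) := by positivity

lemma inv_two_pi_norm : ‖((1 / (2 * Real.pi) : ℝ) : ℂ)‖ ≤ 1 := by
  rw [norm_real, Real.norm_eq_abs, abs_of_pos (by positivity), div_le_one (by positivity)]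
  have := Real.pi_gt_three
  linarith

lemma re_aux (σ c v l : ℝ) : ((1 - 2 * (σ : ℂ) + 2 * ((c : ℂ) + v * I)) * (l : ℂ)).re =
    l * (1 - 2 * σ + 2 * c) := by
  have : (1 - 2 * (σ : ℂ) + 2 * ((c : ℂ) + v * I)) * (l : ℂ) =
      ((l * (1 - 2 * σ + 2 * c) : ℝ) : ℂ) + ((2 * v * l : ℝ) : ℂ) * I := by
    push_cast
    ring
  rw [this]
  simp

lemma final_aux (a b c d P N : ℝ) (ha : 0 ≤ a) (hb : 0 ≤ b) (hc : 0 ≤ c) (hd : 0 ≤ d) (hP : 0 ≤ P)
    (hN : 0 ≤ N) : d * N + a * N + (b * P + c * N) ≤ (a + b + c + d + 1) * (P + N) := by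
  have h1 : 0 ≤ (a + c + d + 1) * P := by positivity
  have h2 : 0 ≤ (b + 1) * N := by positivity
  nlinarith

/-- the main case `t ≥ 2` -/
theorem af_large (hTH : T_TH) (hV : T_VV) (hRC : T_RC) (π : PrimChar) (δ : ℝ) (hδ : 0 < δ)
    (hδ1 : δ ≤ 1 / 10) : ∃ C : ℝ, 0 < C ∧ ∀ σ t X : ℝ,
    1 / 2 ≤ σ → σ ≤ 1 / 2 + δ / 2 → 2 ≤ t → 1 ≤ X →
    ‖((‖π.L (σ + t * I)‖ ^ 2 : ℝ) : ℂ) - SS π σ (1 / X) t -
        (((π.q * t / (2 * Real.pi)) ^ (1 - 2 * σ) : ℝ) : ℂ) *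
          SS π (1 - σ) (4 * Real.pi ^ 2 * X / (π.q * t) ^ 2) t‖ ≤
      C * (t ^ (2 * δ) * X ^ (-(1 / 2) - δ) + X * Real.exp (-(t ^ 2 / 16))) := by
  haveI := π.q_ne
  have hpi3 := Real.pi_gt_three
  obtain ⟨CT, hCT, hTHb⟩ := hTH
  obtain ⟨κ, hκ, hGneg⟩ := GG_neg π
  obtain ⟨C1, hC1, hp1⟩ := poly π 1
  obtain ⟨C2, hC2, hp2⟩ := poly (bar π) 1
  obtain ⟨K1, hK1, habs1⟩ := absorb (C1 + C2)
  obtain ⟨K2, hK2, habs2⟩ := absorb 2
  set c : ℝ := 1 / 2 + δ with hc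
  have hc0 : 0 < c := by rw [hc]; linarith
  set D : ℝ := Dz (1 + δ / 2) with hD
  have hD0 : 0 ≤ D := Dz_nonneg _
  set W0 : ℝ := Real.exp (c ^ 2) / |c| with hW0
  have hW00 : 0 < W0 := by positivity
  set R0 : ℝ := Real.sqrt (Real.pi / (1 / 2)) with hR0
  have hR00 : 0 < R0 := gauss_const_pos
  have hq1 : (1 : ℝ) ≤ π.q := by
    have : 1 ≤ π.q := Nat.one_le_iff_ne_zero.mpr (NeZero.ne _)
    exact_mod_cast this
  have hq0 : (0 : ℝ) < π.q := by linarith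
  set Q : ℝ := (π.q : ℝ) ^ 2 with hQ
  have hQ0 : 0 < Q := by positivity
  set Ca : ℝ := D ^ 2 * (W0 * R0) with hCa
  set Cb : ℝ := Q * D ^ 2 * CT * (W0 * R0) with hCb
  set Cc : ℝ := Q * D ^ 2 * (W0 * R0) * K2 with hCc
  set Cd : ℝ := (c - -c) * (C1 * C2 * Real.exp (c ^ 2) * K1) with hCd
  have hCa0 : 0 ≤ Ca := by positivity
  have hCb0 : 0 ≤ Cb := by positivity
  have hCc0 : 0 ≤ Cc := by positivity
  have hCd0 : 0 ≤ Cd := by
    rw [hCd]
    have : 0 ≤ c - -c := by linarith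
    positivity
  refine ⟨Ca + Cb + Cc + Cd + 1, by positivity, ?_⟩
  intro σ t X hσ1 hσ2 ht hX
  have ht0 : 0 < t := by linarith
  have hX0 : 0 < X := by linarith
  set H : ℝ := t / 2 with hH
  have hH1 : 1 ≤ H := by rw [hH]; linarith
  have hH0 : 0 < H := by linarith
  set Φ : ℂ → ℂ := fun z => cexp (z * Real.log X) * GG π σ t z * cexp (z ^ 2) with hΦ
  have hne1 : ∀ z : ℂ, -H ≤ z.im → z.im ≤ H → (σ : ℂ) + z + t * I ≠ 1 := by
    intro z h1 h2 h
    have := congrArg Complex.im h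
    simp at this
    rw [hH] at h1
    linarith
  have hne2 : ∀ z : ℂ, -H ≤ z.im → z.im ≤ H → (σ : ℂ) + z - t * I ≠ 1 := by
    intro z h1 h2 h
    have := congrArg Complex.im h
    simp at this
    rw [hH] at h2
    linarith
  have hΦd : ∀ z : ℂ, -H ≤ z.im → z.im ≤ H → DifferentiableAt ℂ Φ z := by
    intro z h1 h2
    have d1 : DifferentiableAt ℂ (fun z : ℂ => π.L (σ + z + t * I)) z :=
      DifferentiableAt.comp (g := π.L) (f := fun z : ℂ => (σ : ℂ) + z + t * I) z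
        (differentiableAt_L π (hne1 z h1 h2)) (by fun_prop)
    have d2 : DifferentiableAt ℂ (fun z : ℂ => (bar π).L (σ + z - t * I)) z :=
      DifferentiableAt.comp (g := (bar π).L) (f := fun z : ℂ => (σ : ℂ) + z - t * I) z
        (differentiableAt_L (bar π) (hne2 z h1 h2)) (by fun_prop)
    have d3 : DifferentiableAt ℂ (fun z : ℂ => cexp (z * Real.log X)) z := by fun_prop
    have d4 : DifferentiableAt ℂ (fun z : ℂ => cexp (z ^ 2)) z := by fun_prop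
    exact (d3.mul (d1.mul d2)).mul d4
  have hXc : X ^ c ≤ X := by
    calc X ^ c ≤ X ^ (1 : ℝ) := Real.rpow_le_rpow_of_exponent_le hX (by rw [hc]; linarith)
      _ = X := Real.rpow_one X
  -- the rectangle
  set B : ℝ := X * (C1 * C2 * Real.exp (c ^ 2) * K1) * Real.exp (-(t ^ 2 / 16)) with hB
  have hΦB : ∀ z : ℂ, -c ≤ z.re → z.re ≤ c → |z.im| = H → ‖Φ z‖ ≤ B := by
    intro z h1 h2 h3
    have him := abs_le.mp h3.le
    simp only [hΦ]
    rw [norm_mul, norm_mul]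
    have b1 : ‖cexp (z * Real.log X)‖ ≤ X := by
      rw [Complex.norm_exp]
      have : (z * Real.log X).re = Real.log X * z.re := by simp; ring
      rw [this, ← Real.rpow_def_of_pos hX0]
      exact (Real.rpow_le_rpow_of_exponent_le hX h2).trans hXc
    have b2 : ‖cexp (z ^ 2)‖ ≤ Real.exp (c ^ 2) * Real.exp (-(t ^ 2 / 8)) := by
      rw [Complex.norm_exp, ← Real.exp_add]
      apply Real.exp_le_exp.mpr
      have e1 : (z ^ 2).re = z.re ^ 2 - z.im ^ 2 := by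
        rw [sq]
        simp
        ring
      rw [e1, ← sq_abs z.im, h3, hH]
      have e2 : z.re ^ 2 ≤ c ^ 2 := sq_le_sq' h1 h2
      have e3 : (t / 2) ^ 2 = t ^ 2 / 4 := by ring
      have e4 : 0 ≤ t ^ 2 := sq_nonneg t
      rw [e3]
      linarith
    have i1 : ((σ : ℂ) + z + t * I).im = z.im + t := by simp
    have i2 : ((σ : ℂ) + z - t * I).im = z.im - t := by simp
    have r1 : ((σ : ℂ) + z + t * I).re = σ + z.re := by simp
    have r2 : ((σ : ℂ) + z - t * I).re = σ + z.re := by simp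
    have hzi1 : t / 2 ≤ z.im + t := by rw [hH] at him; linarith
    have hzi2 : z.im + t ≤ 3 * t := by rw [hH] at him; linarith
    have hzi3 : z.im - t ≤ -(t / 2) := by rw [hH] at him; linarith
    have hzi4 : -(3 * t) ≤ z.im - t := by rw [hH] at him; linarith
    have b3 : ‖π.L (σ + z + t * I)‖ ≤ C1 * (1 + 3 * t) ^ C1 := by
      have := hp1 _ (by rw [r1]; linarith : -1 ≤ ((σ : ℂ) + z + t * I).re)
        (by rw [i1, abs_of_pos (by linarith)]; linarith)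
      refine this.trans ?_
      rw [i1, abs_of_pos (by linarith)]
      have h0 : 0 ≤ 1 + (z.im + t) := by linarith
      have h7 : 1 + (z.im + t) ≤ 1 + 3 * t := by linarith
      exact mul_le_mul_of_nonneg_left (Real.rpow_le_rpow h0 h7 hC1.le) hC1.le
    have b4 : ‖(bar π).L (σ + z - t * I)‖ ≤ C2 * (1 + 3 * t) ^ C2 := by
      have := hp2 _ (by rw [r2]; linarith : -1 ≤ ((σ : ℂ) + z - t * I).re)
        (by rw [i2, abs_of_neg (by linarith)]; linarith)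
      refine this.trans ?_
      rw [i2, abs_of_neg (by linarith)]
      have h7 : 1 + -(z.im - t) ≤ 1 + 3 * t := by linarith
      have h0 : 0 ≤ 1 + -(z.im - t) := by linarith
      exact mul_le_mul_of_nonneg_left (Real.rpow_le_rpow h0 h7 hC2.le) hC2.le
    have b5 : ‖GG π σ t z‖ ≤ (C1 * (1 + 3 * t) ^ C1) * (C2 * (1 + 3 * t) ^ C2) := by
      unfold GG
      rw [norm_mul]
      gcongr
    have h13 : 0 < 1 + 3 * t := by linarith
    calc ‖cexp (z * Real.log X)‖ * ‖GG π σ t z‖ * ‖cexp (z ^ 2)‖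
        ≤ X * ((C1 * (1 + 3 * t) ^ C1) * (C2 * (1 + 3 * t) ^ C2)) *
          (Real.exp (c ^ 2) * Real.exp (-(t ^ 2 / 8))) := by gcongr
      _ = X * (C1 * C2 * Real.exp (c ^ 2)) *
          (((1 + 3 * t) ^ C1 * (1 + 3 * t) ^ C2) * Real.exp (-(t ^ 2 / 8))) := by ring
      _ = X * (C1 * C2 * Real.exp (c ^ 2)) *
          ((1 + 3 * t) ^ (C1 + C2) * Real.exp (-(t ^ 2 / 8))) := by rw [← Real.rpow_add h13]
      _ ≤ X * (C1 * C2 * Real.exp (c ^ 2)) * (K1 * Real.exp (-(t ^ 2 / 16))) := by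
          have := habs1 t ht0.le
          gcongr
      _ = B := by rw [hB]; ring
  have hrect := rect_cauchy hRC Φ (-c) c H B (by linarith) hc0 hH1
    (fun z _ _ h1 h2 => hΦd z h1 h2) hΦB
  have hΦ0 : Φ 0 = ((‖π.L (σ + t * I)‖ ^ 2 : ℝ) : ℂ) := by
    simp only [hΦ]
    rw [GG_zero π σ t ht0]
    simp
  -- the first sum
  have hs1 : 1 + δ / 2 ≤ σ + c := by rw [hc]; linarith
  have hs2 : 1 + δ / 2 ≤ 1 - σ + c := by rw [hc]; linarith
  have hX1 : (0 : ℝ) < 1 / X := by positivity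
  obtain ⟨u1, u2, u3⟩ := line_SS hV π σ (1 / X) t c hX1 hc0 (by linarith)
  have hDz1 : Dz (σ + c) ≤ D := Dz_anti (by linarith) hs1
  have hDz2 : Dz (1 - σ + c) ≤ D := Dz_anti (by linarith) hs2
  have hS1 : (1 / X) ^ (-c) * Dz (σ + c) ^ 2 ≤ X * D ^ 2 := by
    have e1 : (1 / X) ^ (-c) = X ^ c := by
      rw [one_div, Real.inv_rpow hX0.le, Real.rpow_neg hX0.le, inv_inv]
    rw [e1]
    have := Dz_nonneg (σ + c)
    gcongr
  have t1 := truncate _ c H (X * D ^ 2) hc0.ne' hH0.le u1 (fun v => (u2 v).trans hS1)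
  have i1 : ∀ v : ℝ, cexp (-((c : ℂ) + v * I) * Real.log (1 / X)) * GG π σ t (c + v * I) *
      ker c v = Φ (c + v * I) / (c + v * I) := by
    intro v
    simp only [hΦ]
    unfold ker
    have : (-((c : ℂ) + v * I) * Real.log (1 / X)) = ((c : ℂ) + v * I) * Real.log X := by
      rw [one_div, Real.log_inv]
      push_cast
      ring
    rw [this]
    ring
  simp only [i1] at u3 t1
  have hexpH : Real.exp (-(H ^ 2 / 2)) = Real.exp (-(t ^ 2 / 8)) := by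
    rw [hH]
    congr 1
    ring
  rw [hexpH] at t1
  have hE1 : ‖((1 / (2 * Real.pi) : ℝ) : ℂ) * (∫ v in (-H)..H, Φ (c + v * I) / (c + v * I)) -
      SS π σ (1 / X) t‖ ≤ Ca * (X * Real.exp (-(t ^ 2 / 16))) := by
    rw [u3, ← mul_sub, norm_mul, norm_sub_rev]
    have h8 : Real.exp (-(t ^ 2 / 8)) ≤ Real.exp (-(t ^ 2 / 16)) := by
      apply Real.exp_le_exp.mpr
      have := sq_nonneg t
      linarith
    calc _ ≤ 1 * (X * D ^ 2 * (Real.exp (c ^ 2) / |c| * Real.exp (-(t ^ 2 / 8)) *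
          Real.sqrt (Real.pi / (1 / 2)))) := by
          have := inv_two_pi_norm
          gcongr
      _ ≤ 1 * (X * D ^ 2 * (Real.exp (c ^ 2) / |c| * Real.exp (-(t ^ 2 / 16)) *
          Real.sqrt (Real.pi / (1 / 2)))) := by gcongr
      _ = _ := by rw [hCa, hW0, hR0]; ring
  -- the second sum
  set ξ : ℝ := 4 * Real.pi ^ 2 * X / (π.q * t) ^ 2 with hξ
  have hξ0 : 0 < ξ := by positivity
  set y : ℝ := π.q * t / (2 * Real.pi) with hy
  have hy0 : 0 < y := by positivity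
  have hlogξ : Real.log ξ = Real.log X - 2 * Real.log y := by
    have : ξ = X / y ^ 2 := by
      rw [hξ, hy]
      field_simp
      ring
    rw [this, Real.log_div hX0.ne' (by positivity), Real.log_pow]
    push_cast
    ring
  obtain ⟨w1, w2, w3⟩ := line_SS hV π (1 - σ) ξ t c hξ0 hc0 (by linarith)
  set e : ℝ := 1 - 2 * σ + 2 * c with he
  have he0 : 0 ≤ e := by rw [he, hc]; linarith
  have he2 : e ≤ 2 := by rw [he, hc]; linarith
  have hξc : ξ ^ (-c) = y ^ (2 * c) * X ^ (-c) := by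
    rw [Real.rpow_def_of_pos hξ0, hlogξ, Real.rpow_def_of_pos hy0, Real.rpow_def_of_pos hX0,
      ← Real.exp_add]
    congr 1
    ring
  have hye : y ^ (1 - 2 * σ) * ξ ^ (-c) = y ^ e * X ^ (-c) := by
    rw [hξc, ← mul_assoc, ← Real.rpow_add hy0]
  have hqt1 : 1 ≤ π.q * t := one_le_mul_of_one_le_of_one_le hq1 (by linarith)
  have hyle : y ≤ π.q * t := by
    rw [hy]
    exact div_le_self (by positivity) (by linarith)
  have hyeQ : y ^ e ≤ Q * (1 + 3 * t) ^ (2 : ℝ) := by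
    calc y ^ e ≤ (π.q * t) ^ e := by gcongr
      _ ≤ (π.q * t) ^ (2 : ℝ) := Real.rpow_le_rpow_of_exponent_le hqt1 he2
      _ = Q * t ^ 2 := by rw [Real.rpow_two, hQ]; ring
      _ ≤ Q * (1 + 3 * t) ^ 2 := by gcongr; linarith
      _ = _ := by rw [Real.rpow_two]
  have hXc1 : X ^ (-c) ≤ 1 := Real.rpow_le_one_of_one_le_of_nonpos hX (by linarith)
  have t2 := truncate _ c H (ξ ^ (-c) * D ^ 2) hc0.ne' hH0.le w1 (fun v => (w2 v).trans (by
    have := Dz_nonneg (1 - σ + c)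
    gcongr))
  rw [hexpH] at t2
  -- norm of GG on the right line
  have hGGn : ∀ v : ℝ, ‖GG π (1 - σ) t (c + v * I)‖ ≤ D ^ 2 := by
    intro v
    obtain ⟨-, w2', -⟩ := line_SS hV π (1 - σ) 1 t c one_pos hc0 (by linarith)
    have := w2' v
    rw [Real.log_one, ofReal_zero, mul_zero, Complex.exp_zero, one_mul, Real.one_rpow,
      one_mul] at this
    refine this.trans ?_
    have := Dz_nonneg (1 - σ + c)
    gcongr
  set g : ℝ → ℂ := fun v => cexp (-((c : ℂ) + v * I) * Real.log X) *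
    cexp ((1 - 2 * σ + 2 * (c + v * I)) * Real.log π.q) * GG π (1 - σ) t (c + v * I) with hg
  set ex : ℝ → ℂ := fun v => cexp ((2 * (1 - σ + (c + v * I)) - 1) *
    Real.log (t / (2 * Real.pi))) with hex
  have hgex : ∀ v : ℝ, g v * ex v = ((y ^ (1 - 2 * σ) : ℝ) : ℂ) *
      (cexp (-((c : ℂ) + v * I) * Real.log ξ) * GG π (1 - σ) t (c + v * I)) := by
    intro v
    have hlogy : Real.log y = Real.log π.q + Real.log (t / (2 * Real.pi)) := by
      rw [hy, mul_div_assoc, Real.log_mul hq0.ne' (by positivity)]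
    simp only [hg, hex]
    rw [Real.rpow_def_of_pos hy0, ofReal_exp, hlogξ]
    have e1 : cexp (-((c : ℂ) + v * I) * Real.log X) *
        cexp ((1 - 2 * σ + 2 * (c + v * I)) * Real.log π.q) * GG π (1 - σ) t (c + v * I) *
        cexp ((2 * (1 - σ + (c + v * I)) - 1) * Real.log (t / (2 * Real.pi))) =
        (cexp (-((c : ℂ) + v * I) * Real.log X) *
        cexp ((1 - 2 * σ + 2 * (c + v * I)) * Real.log π.q) *
        cexp ((2 * (1 - σ + (c + v * I)) - 1) * Real.log (t / (2 * Real.pi)))) *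
        GG π (1 - σ) t (c + v * I) := by ring
    rw [e1, ← mul_assoc]
    congr 1
    rw [← Complex.exp_add, ← Complex.exp_add, ← Complex.exp_add, hlogy]
    congr 1
    push_cast
    ring
  -- the integral on the left
  have hleft : (∫ v in (-H)..H, Φ ((-c : ℝ) + v * I) / ((-c : ℝ) + v * I)) =
      -∫ v in (-H)..H, Φ (-((c : ℂ) + v * I)) / (c + v * I) := by
    have h1 := intervalIntegral.integral_comp_neg (a := -H) (b := H)
      (fun v : ℝ => Φ ((-c : ℝ) + v * I) / ((-c : ℝ) + v * I))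
    rw [neg_neg] at h1
    rw [← h1, ← intervalIntegral.integral_neg]
    congr 1
    funext v
    have e2 : (((-c : ℝ) : ℂ) + ((-v : ℝ) : ℂ) * I) = -((c : ℂ) + v * I) := by
      push_cast
      ring
    rw [e2, div_neg]
  have hJ1 : ∀ v : ℝ, |v| ≤ H → Φ (-((c : ℂ) + v * I)) / (c + v * I) =
      g v * Rf κ (1 - σ + (c + v * I)) t * ker c v := by
    intro v hv
    have h1 := hGneg σ t ((c : ℂ) + v * I) (by
      have : ((c : ℂ) + v * I).im = v := by simp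
      rw [this]
      refine hv.trans_lt ?_
      rw [hH]
      linarith)
    simp only [hΦ, hg]
    unfold ker
    rw [h1, neg_sq]
    have e3 : -((c : ℂ) + v * I) * Real.log X = -((c : ℂ) + v * I) * Real.log X := rfl
    ring
  have hI1 : IntervalIntegrable (fun v : ℝ => Φ (-((c : ℂ) + v * I)) / (c + v * I)) volume (-H) H := by
    apply ContinuousOn.intervalIntegrable
    rw [uIcc_of_le (by linarith)]
    intro v hv
    have h1 : ContinuousAt Φ (-((c : ℂ) + v * I)) :=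
      (hΦd _ (by simp; linarith [hv.2]) (by simp; linarith [hv.1])).continuousAt
    have h2 : ContinuousAt (fun v : ℝ => Φ (-((c : ℂ) + v * I))) v :=
      ContinuousAt.comp (f := fun v : ℝ => -((c : ℂ) + v * I)) h1 (by fun_prop)
    exact (h2.div (by fun_prop) (ne_zero_of_re hc0.ne' v)).continuousWithinAt
  have hgexc : Continuous (fun v : ℝ => g v * ex v) := by
    have : (fun v : ℝ => g v * ex v) = fun v : ℝ => ((y ^ (1 - 2 * σ) : ℝ) : ℂ) *
      (cexp (-((c : ℂ) + v * I) * Real.log ξ) * GG π (1 - σ) t (c + v * I)) := funext hgex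
    rw [this]
    exact w1.const_mul _
  have hI2 : IntervalIntegrable (fun v : ℝ => g v * ex v * ker c v) volume (-H) H :=
    (hgexc.mul (continuous_ker c hc0.ne')).intervalIntegrable _ _
  -- replacement of the Gamma factors
  have hE2 : ‖(∫ v in (-H)..H, Φ (-((c : ℂ) + v * I)) / (c + v * I)) -
      ∫ v in (-H)..H, g v * ex v * ker c v‖ ≤ Cb * (t ^ (2 * δ) * X ^ (-(1 / 2) - δ)) := by
    rw [← intervalIntegral.integral_sub hI1 hI2]
    have e4 : ∫ v in (-H)..H, (Φ (-((c : ℂ) + v * I)) / (c + v * I) - g v * ex v * ker c v) =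
        ∫ v in (-H)..H, (g v * (Rf κ (1 - σ + (c + v * I)) t - ex v)) * ker c v := by
      apply intervalIntegral.integral_congr
      intro v hv
      rw [uIcc_of_le (by linarith)] at hv
      simp only
      rw [hJ1 v (abs_le.mpr hv)]
      ring
    rw [e4]
    have hgn : ∀ v : ℝ, ‖g v‖ ≤ X ^ (-c) * Q * D ^ 2 := by
      intro v
      simp only [hg]
      rw [norm_mul, norm_mul]
      have n1 : ‖cexp (-((c : ℂ) + v * I) * Real.log X)‖ = X ^ (-c) := norm_cpow_line hX0 c v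
      have n2 : ‖cexp ((1 - 2 * σ + 2 * (c + v * I)) * Real.log π.q)‖ ≤ Q := by
        rw [Complex.norm_exp]
        have : ((1 - 2 * σ + 2 * ((c : ℂ) + v * I)) * Real.log π.q).re = Real.log π.q * e :=
          re_aux σ c v _
        rw [this, ← Real.rpow_def_of_pos hq0, hQ, ← Real.rpow_two]
        exact Real.rpow_le_rpow_of_exponent_le hq1 he2
      have n3 := hGGn v
      rw [n1]
      gcongr
    have hrf : ∀ v : ℝ, ‖Rf κ (1 - σ + (c + v * I)) t - ex v‖ ≤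
        CT * t ^ (2 * δ) * Real.exp (v ^ 2 / 2) := by
      intro v
      have hAre : ((1 : ℂ) - σ + (c + v * I)).re = 1 - σ + c := by simp
      have hAim : ((1 : ℂ) - σ + (c + v * I)).im = v := by simp
      have h1 := hTHb κ (1 - σ + (c + v * I)) t hκ (by rw [hAre, hc]; linarith)
        (by rw [hAre, hc]; linarith) (by linarith)
      rw [hAre, hAim] at h1
      refine h1.trans ?_
      have e5 : 2 * (1 - σ + c) - 1 = e := by rw [he]; ring
      rw [e5]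
      have h2 : (t / (2 * Real.pi)) ^ e ≤ t ^ e := by
        have : t / (2 * Real.pi) ≤ t := div_le_self ht0.le (by linarith)
        gcongr
      have h3 : t ^ e = t * t ^ (1 - 2 * σ + 2 * δ) := by
        rw [← Real.rpow_one_add' ht0.le]
        · congr 1
          rw [he, hc]
          ring
        · have : 0 < 1 + (1 - 2 * σ + 2 * δ) := by linarith
          exact this.ne'
      have h4 : t ^ (1 - 2 * σ + 2 * δ) ≤ t ^ (2 * δ) :=
        Real.rpow_le_rpow_of_exponent_le (by linarith) (by linarith)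
      calc CT / t * (t / (2 * Real.pi)) ^ e * Real.exp (v ^ 2 / 2)
          ≤ CT / t * (t * t ^ (1 - 2 * σ + 2 * δ)) * Real.exp (v ^ 2 / 2) := by
            rw [← h3]
            gcongr
        _ = CT * t ^ (1 - 2 * σ + 2 * δ) * Real.exp (v ^ 2 / 2) := by
            field_simp
        _ ≤ _ := by gcongr
    have h5 := interval_ker_norm (fun v => g v * (Rf κ (1 - σ + (c + v * I)) t - ex v)) c H
      (X ^ (-c) * Q * D ^ 2 * (CT * t ^ (2 * δ))) hc0.ne' hH0.le (by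
        intro v hv
        rw [norm_mul]
        calc _ ≤ (X ^ (-c) * Q * D ^ 2) * (CT * t ^ (2 * δ) * Real.exp (v ^ 2 / 2)) := by
              have := hgn v
              have := hrf v
              gcongr
          _ = _ := by ring) (by positivity)
    refine h5.trans (le_of_eq ?_)
    have e6 : X ^ (-(1 / 2) - δ) = X ^ (-c) := by
      congr 1
      rw [hc]
      ring
    rw [e6, hCb, hW0, hR0]
    ring
  have hE3 : ‖(∫ v in (-H)..H, g v * ex v * ker c v) -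
      ((y ^ (1 - 2 * σ) : ℝ) : ℂ) * ∫ v : ℝ, cexp (-((c : ℂ) + v * I) * Real.log ξ) *
        GG π (1 - σ) t (c + v * I) * ker c v‖ ≤ Cc * (X * Real.exp (-(t ^ 2 / 16))) := by
    have e7 : (∫ v in (-H)..H, g v * ex v * ker c v) = ((y ^ (1 - 2 * σ) : ℝ) : ℂ) *
        ∫ v in (-H)..H, cexp (-((c : ℂ) + v * I) * Real.log ξ) *
          GG π (1 - σ) t (c + v * I) * ker c v := by
      rw [← intervalIntegral.integral_const_mul]
      congr 1
      funext v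
      rw [hgex]
      ring
    rw [e7, ← mul_sub, norm_mul, norm_sub_rev, norm_real, Real.norm_eq_abs,
      abs_of_pos (by positivity)]
    calc y ^ (1 - 2 * σ) * _ ≤ y ^ (1 - 2 * σ) * (ξ ^ (-c) * D ^ 2 *
          (Real.exp (c ^ 2) / |c| * Real.exp (-(t ^ 2 / 8)) *
            Real.sqrt (Real.pi / (1 / 2)))) := by gcongr
      _ = (y ^ (1 - 2 * σ) * ξ ^ (-c)) * (D ^ 2 * (W0 * R0)) * Real.exp (-(t ^ 2 / 8)) := by
          rw [hW0, hR0]; ring
      _ = (y ^ e * X ^ (-c)) * (D ^ 2 * (W0 * R0)) * Real.exp (-(t ^ 2 / 8)) := by rw [hye]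
      _ ≤ ((Q * (1 + 3 * t) ^ (2 : ℝ)) * 1) * (D ^ 2 * (W0 * R0)) * Real.exp (-(t ^ 2 / 8)) := by
          gcongr
      _ = Q * (D ^ 2 * (W0 * R0)) * ((1 + 3 * t) ^ (2 : ℝ) * Real.exp (-(t ^ 2 / 8))) := by ring
      _ ≤ Q * (D ^ 2 * (W0 * R0)) * (K2 * Real.exp (-(t ^ 2 / 16))) := by
          have := habs2 t ht0.le
          gcongr
      _ = Cc * (1 * Real.exp (-(t ^ 2 / 16))) := by rw [hCc]; ring
      _ ≤ _ := by gcongr
  -- assembly
  rw [hΦ0, hleft] at hrect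
  have hrect' : ‖((1 / (2 * Real.pi) : ℝ) : ℂ) * (∫ v in (-H)..H, Φ (c + v * I) / (c + v * I)) -
      ((1 / (2 * Real.pi) : ℝ) : ℂ) *
        (-∫ v in (-H)..H, Φ (-((c : ℂ) + v * I)) / (c + v * I)) -
      ((‖π.L (σ + t * I)‖ ^ 2 : ℝ) : ℂ)‖ ≤ Cd * (X * Real.exp (-(t ^ 2 / 16))) := by
    refine hrect.trans (le_of_eq ?_)
    rw [hB, hCd]
    ring
  rw [w3]
  generalize (∫ v in (-H)..H, Φ (c + v * I) / (c + v * I)) = Ic at hrect' hE1
  generalize (∫ v in (-H)..H, Φ (-((c : ℂ) + v * I)) / (c + v * I)) = Im at hrect' hE2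
  generalize (∫ v in (-H)..H, g v * ex v * ker c v) = Ig at hE2 hE3
  generalize (∫ v : ℝ, cexp (-((c : ℂ) + v * I) * Real.log ξ) *
        GG π (1 - σ) t (c + v * I) * ker c v) = Iξ at hE3 ⊢
  generalize ((‖π.L (σ + t * I)‖ ^ 2 : ℝ) : ℂ) = LL at hrect' ⊢
  generalize SS π σ (1 / X) t = S1 at hE1 ⊢
  have hsplit : LL - S1 - ((y ^ (1 - 2 * σ) : ℝ) : ℂ) * (((1 / (2 * Real.pi) : ℝ) : ℂ) * Iξ) =
      -(((1 / (2 * Real.pi) : ℝ) : ℂ) * Ic - ((1 / (2 * Real.pi) : ℝ) : ℂ) * (-Im) - LL) +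
      (((1 / (2 * Real.pi) : ℝ) : ℂ) * Ic - S1) +
      ((1 / (2 * Real.pi) : ℝ) : ℂ) * ((Im - Ig) +
        (Ig - ((y ^ (1 - 2 * σ) : ℝ) : ℂ) * Iξ)) := by ring
  rw [hsplit]
  have hn := inv_two_pi_norm
  have hfin : ‖((1 / (2 * Real.pi) : ℝ) : ℂ) * ((Im - Ig) +
        (Ig - ((y ^ (1 - 2 * σ) : ℝ) : ℂ) * Iξ))‖ ≤ Cb * (t ^ (2 * δ) * X ^ (-(1 / 2) - δ)) +
        Cc * (X * Real.exp (-(t ^ 2 / 16))) := by
    rw [norm_mul]
    calc _ ≤ 1 * (‖Im - Ig‖ + ‖Ig - ((y ^ (1 - 2 * σ) : ℝ) : ℂ) * Iξ‖) := by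
          have := norm_add_le (Im - Ig) (Ig - ((y ^ (1 - 2 * σ) : ℝ) : ℂ) * Iξ)
          gcongr
      _ ≤ 1 * (Cb * (t ^ (2 * δ) * X ^ (-(1 / 2) - δ)) +
        Cc * (X * Real.exp (-(t ^ 2 / 16)))) := by gcongr
      _ = _ := one_mul _
  have hP : 0 ≤ t ^ (2 * δ) * X ^ (-(1 / 2) - δ) := by positivity
  have hN : 0 ≤ X * Real.exp (-(t ^ 2 / 16)) := by positivity
  calc _ ≤ ‖-(((1 / (2 * Real.pi) : ℝ) : ℂ) * Ic - ((1 / (2 * Real.pi) : ℝ) : ℂ) * (-Im) - LL)‖ +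
        ‖((1 / (2 * Real.pi) : ℝ) : ℂ) * Ic - S1‖ + ‖((1 / (2 * Real.pi) : ℝ) : ℂ) * ((Im - Ig) +
        (Ig - ((y ^ (1 - 2 * σ) : ℝ) : ℂ) * Iξ))‖ := norm_add₃_le
    _ ≤ Cd * (X * Real.exp (-(t ^ 2 / 16))) + Ca * (X * Real.exp (-(t ^ 2 / 16))) +
        (Cb * (t ^ (2 * δ) * X ^ (-(1 / 2) - δ)) + Cc * (X * Real.exp (-(t ^ 2 / 16)))) := by
        rw [norm_neg]
        gcongr
    _ ≤ _ := final_aux Ca Cb Cc Cd _ _ hCa0 hCb0 hCc0 hCd0 hP hN

/-- crude bound for the smooth double sum -/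
lemma SS_bound (hV : T_VV) (c : ℝ) (hc : 0 ≤ c) : ∃ C : ℝ, 0 < C ∧ ∀ (π : PrimChar) (s ξ t : ℝ),
    0 < ξ → 1 < s + c → ‖SS π s ξ t‖ ≤ C * (ξ ^ (-c) * Dz (s + c) ^ 2) := by
  obtain ⟨C, hC, hb⟩ := hV.2.2.2.1 c hc
  refine ⟨C, hC, ?_⟩
  intro π s ξ t hξ hs
  obtain ⟨h1, h2⟩ := summable_aa π s ξ t c hξ hs
  have hn : ∀ p : ℕ × ℕ, ‖aa π s t p * ((V ((p.1 : ℝ) * p.2 * ξ) : ℝ) : ℂ)‖ ≤
      C * (‖aa π s t p‖ * ((p.1 : ℝ) * p.2 * ξ) ^ (-c)) := by
    intro p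
    rcases aa_or π s ξ t hξ p with h | h
    · simp [h]
    · rw [norm_mul, norm_real, Real.norm_eq_abs, abs_of_nonneg (hV.1 _ h).1]
      have := hb _ h
      calc _ ≤ ‖aa π s t p‖ * (C * ((p.1 : ℝ) * p.2 * ξ) ^ (-c)) := by gcongr
        _ = _ := by ring
  have h3 : Summable fun p : ℕ × ℕ => ‖aa π s t p * ((V ((p.1 : ℝ) * p.2 * ξ) : ℝ) : ℂ)‖ :=
    Summable.of_nonneg_of_le (fun _ => norm_nonneg _) hn (h1.mul_left C)
  rw [SS_eq]
  calc _ ≤ _ := norm_tsum_le_tsum_norm h3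
    _ ≤ _ := h3.tsum_le_tsum hn (h1.mul_left C)
    _ = C * ∑' p : ℕ × ℕ, ‖aa π s t p‖ * ((p.1 : ℝ) * p.2 * ξ) ^ (-c) := tsum_mul_left
    _ ≤ _ := by gcongr

theorem af_small (hV : T_VV) (π : PrimChar) (δ : ℝ) (hδ : 0 < δ)
    (hδ1 : δ ≤ 1 / 10) : ∃ C : ℝ, 0 < C ∧ ∀ σ t X : ℝ,
    1 / 2 ≤ σ → σ ≤ 1 / 2 + δ / 2 → 0 < t → t ≤ 2 → 1 ≤ X →
    ‖((‖π.L (σ + t * I)‖ ^ 2 : ℝ) : ℂ) - SS π σ (1 / X) t -
        (((π.q * t / (2 * Real.pi)) ^ (1 - 2 * σ) : ℝ) : ℂ) *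
          SS π (1 - σ) (4 * Real.pi ^ 2 * X / (π.q * t) ^ 2) t‖ ≤ C * X := by
  haveI := π.q_ne
  have hpi3 := Real.pi_gt_three
  obtain ⟨c, hc⟩ : ∃ c : ℝ, c = 1 / 2 + δ := ⟨_, rfl⟩
  have hc0 : 0 < c := by rw [hc]; linarith
  obtain ⟨CV, hCV, hSS⟩ := SS_bound hV c hc0.le
  obtain ⟨D, hD⟩ : ∃ D : ℝ, D = Dz (1 + δ / 2) := ⟨_, rfl⟩
  have hD0 : 0 ≤ D := by rw [hD]; exact Dz_nonneg _
  have hq1 : (1 : ℝ) ≤ π.q := by
    have : 1 ≤ π.q := Nat.one_le_iff_ne_zero.mpr (NeZero.ne _)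
    exact_mod_cast this
  have hq0 : (0 : ℝ) < π.q := by linarith
  obtain ⟨Q, hQ⟩ : ∃ Q : ℝ, Q = (π.q : ℝ) ^ 2 := ⟨_, rfl⟩
  have hQ0 : 0 < Q := by rw [hQ]; positivity
  -- the first term
  obtain ⟨M, hM⟩ : ∃ M : ℝ, ∀ σ t : ℝ, 1 / 2 ≤ σ → σ ≤ 3 / 5 → 0 ≤ t → t ≤ 2 →
      ‖π.L (σ + t * I)‖ ≤ M := by
    have hcomp : IsCompact ((fun w : ℂ => w.re) ⁻¹' Icc (1 / 2) (3 / 5) ∩
        (fun w : ℂ => w.im) ⁻¹' Icc 0 2) :=
      (isCompact_Icc (a := (1 / 2 : ℝ)) (b := 3 / 5)).reProdIm (isCompact_Icc (a := (0 : ℝ)) (b := 2))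
    have hcont : ContinuousOn π.L ((fun w : ℂ => w.re) ⁻¹' Icc (1 / 2) (3 / 5) ∩
        (fun w : ℂ => w.im) ⁻¹' Icc 0 2) := by
      intro w hw
      refine (differentiableAt_L π ?_).continuousAt.continuousWithinAt
      intro h
      have := hw.1.2
      rw [h] at this
      norm_num at this
    obtain ⟨M, hM⟩ := hcomp.exists_bound_of_continuousOn hcont
    exact ⟨M, fun σ t h1 h2 h3 h4 => hM _ ⟨⟨by simpa using h1, by simpa using h2⟩,
      ⟨by simpa using h3, by simpa using h4⟩⟩⟩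
  refine ⟨M ^ 2 + CV * D ^ 2 + CV * D ^ 2 * Q + 1, by positivity, ?_⟩
  intro σ t X hσ1 hσ2 ht0 ht2 hX
  have hX0 : 0 < X := by linarith
  have hXc : X ^ c ≤ X := by
    calc X ^ c ≤ X ^ (1 : ℝ) := Real.rpow_le_rpow_of_exponent_le hX (by rw [hc]; linarith)
      _ = X := Real.rpow_one X
  have hs1 : 1 + δ / 2 ≤ σ + c := by rw [hc]; linarith
  have hs2 : 1 + δ / 2 ≤ 1 - σ + c := by rw [hc]; linarith
  have hDz1 : Dz (σ + c) ≤ D := by rw [hD]; exact Dz_anti (by linarith) hs1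
  have hDz2 : Dz (1 - σ + c) ≤ D := by rw [hD]; exact Dz_anti (by linarith) hs2
  have hn1 := Dz_nonneg (σ + c)
  have hn2 := Dz_nonneg (1 - σ + c)
  have b1 : ‖((‖π.L (σ + t * I)‖ ^ 2 : ℝ) : ℂ)‖ ≤ M ^ 2 * X := by
    rw [norm_real, Real.norm_eq_abs, abs_of_nonneg (by positivity)]
    have h1 := hM σ t hσ1 (by linarith) ht0.le ht2
    have h0 := norm_nonneg (π.L (σ + t * I))
    calc ‖π.L (σ + t * I)‖ ^ 2 ≤ M ^ 2 := by gcongr
      _ = M ^ 2 * 1 := by ring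
      _ ≤ M ^ 2 * X := by gcongr
  have b2 : ‖SS π σ (1 / X) t‖ ≤ CV * D ^ 2 * X := by
    have h1 := hSS π σ (1 / X) t (by positivity) (by linarith)
    have e1 : (1 / X) ^ (-c) = X ^ c := by
      rw [one_div, Real.inv_rpow hX0.le, Real.rpow_neg hX0.le, inv_inv]
    rw [e1] at h1
    calc _ ≤ _ := h1
      _ ≤ CV * (X * D ^ 2) := by gcongr
      _ = _ := by ring
  obtain ⟨ξ, hξ⟩ : ∃ ξ : ℝ, ξ = 4 * Real.pi ^ 2 * X / (π.q * t) ^ 2 := ⟨_, rfl⟩
  have hξ0 : 0 < ξ := by rw [hξ]; positivity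
  obtain ⟨y, hy⟩ : ∃ y : ℝ, y = π.q * t / (2 * Real.pi) := ⟨_, rfl⟩
  have hy0 : 0 < y := by rw [hy]; positivity
  have hlogξ : Real.log ξ = Real.log X - 2 * Real.log y := by
    have : ξ = X / y ^ 2 := by
      rw [hξ, hy]
      field_simp
      ring
    rw [this, Real.log_div hX0.ne' (by positivity), Real.log_pow]
    push_cast
    ring
  have hξc : ξ ^ (-c) = y ^ (2 * c) * X ^ (-c) := by
    rw [Real.rpow_def_of_pos hξ0, hlogξ, Real.rpow_def_of_pos hy0, Real.rpow_def_of_pos hX0,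
      ← Real.exp_add]
    congr 1
    ring
  have hye : y ^ (1 - 2 * σ) * ξ ^ (-c) = y ^ (1 - 2 * σ + 2 * c) * X ^ (-c) := by
    rw [hξc, ← mul_assoc, ← Real.rpow_add hy0]
  have he0 : 0 ≤ 1 - 2 * σ + 2 * c := by rw [hc]; linarith
  have he2 : 1 - 2 * σ + 2 * c ≤ 2 := by rw [hc]; linarith
  have hyq : y ≤ π.q := by
    rw [hy, div_le_iff₀ (by positivity)]
    have : t ≤ 2 * Real.pi := by linarith
    gcongr
  have hyeQ : y ^ (1 - 2 * σ + 2 * c) ≤ Q := by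
    calc y ^ (1 - 2 * σ + 2 * c) ≤ (π.q : ℝ) ^ (1 - 2 * σ + 2 * c) := by gcongr
      _ ≤ (π.q : ℝ) ^ (2 : ℝ) := Real.rpow_le_rpow_of_exponent_le hq1 he2
      _ = Q := by rw [Real.rpow_two, hQ]
  have hXc1 : X ^ (-c) ≤ 1 := Real.rpow_le_one_of_one_le_of_nonpos hX (by linarith)
  have b3 : ‖((y ^ (1 - 2 * σ) : ℝ) : ℂ) * SS π (1 - σ) ξ t‖ ≤ CV * D ^ 2 * Q * X := by
    rw [norm_mul, norm_real, Real.norm_eq_abs, abs_of_pos (by positivity)]
    have h1 := hSS π (1 - σ) ξ t hξ0 (by linarith)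
    calc y ^ (1 - 2 * σ) * _ ≤ y ^ (1 - 2 * σ) * (CV * (ξ ^ (-c) * Dz (1 - σ + c) ^ 2)) := by gcongr
      _ = CV * (y ^ (1 - 2 * σ) * ξ ^ (-c)) * Dz (1 - σ + c) ^ 2 := by ring
      _ = CV * (y ^ (1 - 2 * σ + 2 * c) * X ^ (-c)) * Dz (1 - σ + c) ^ 2 := by rw [hye]
      _ ≤ CV * (Q * 1) * D ^ 2 := by gcongr
      _ = CV * D ^ 2 * Q * 1 := by ring
      _ ≤ _ := by gcongr
  rw [← hξ, ← hy]
  calc _ ≤ ‖((‖π.L (σ + t * I)‖ ^ 2 : ℝ) : ℂ) - SS π σ (1 / X) t‖ +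
        ‖((y ^ (1 - 2 * σ) : ℝ) : ℂ) * SS π (1 - σ) ξ t‖ := norm_sub_le _ _
    _ ≤ (‖((‖π.L (σ + t * I)‖ ^ 2 : ℝ) : ℂ)‖ + ‖SS π σ (1 / X) t‖) +
        ‖((y ^ (1 - 2 * σ) : ℝ) : ℂ) * SS π (1 - σ) ξ t‖ := by
        gcongr
        exact norm_sub_le _ _
    _ ≤ (M ^ 2 * X + CV * D ^ 2 * X) + CV * D ^ 2 * Q * X := by gcongr
    _ ≤ _ := by linarith

theorem af (hTH : T_TH) (hV : T_VV) (hRC : T_RC) : T_AF := by
  intro π δ hδ hδ1
  obtain ⟨C1, hC1, h1⟩ := af_large hTH hV hRC π δ hδ hδ1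
  obtain ⟨C2, hC2, h2⟩ := af_small hV π δ hδ hδ1
  refine ⟨C1 + C2 * Real.exp 1, by positivity, ?_⟩
  intro σ t X hσ1 hσ2 ht hX
  have hX0 : 0 < X := by linarith
  have hP : 0 ≤ t ^ (2 * δ) * X ^ (-(1 / 2) - δ) := by positivity
  have hN : 0 ≤ X * Real.exp (-(t ^ 2 / 16)) := by positivity
  rcases le_or_gt 2 t with h | h
  · refine (h1 σ t X hσ1 hσ2 h hX).trans ?_
    have : C1 ≤ C1 + C2 * Real.exp 1 := by
      have : 0 < C2 * Real.exp 1 := by positivity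
      linarith
    gcongr
  · refine (h2 σ t X hσ1 hσ2 ht h.le hX).trans ?_
    have h3 : 1 ≤ Real.exp 1 * Real.exp (-(t ^ 2 / 16)) := by
      rw [← Real.exp_add]
      apply Real.one_le_exp
      have : t ^ 2 ≤ 4 := by nlinarith
      linarith
    calc C2 * X = C2 * X * 1 := by ring
      _ ≤ C2 * X * (Real.exp 1 * Real.exp (-(t ^ 2 / 16))) := by gcongr
      _ = (C2 * Real.exp 1) * (X * Real.exp (-(t ^ 2 / 16))) := by ring
      _ ≤ (C1 + C2 * Real.exp 1) * (X * Real.exp (-(t ^ 2 / 16))) := by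
          gcongr
          linarith
      _ ≤ _ := by
          gcongr
          linarith

end Pool.Agent.H58.MZ
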