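import Pool.Agent.H58.MZ.AF
import Pool.Agent.H89.DL.YB

/-!
# (SM) a long smooth sum for `L`.  helper58
-/

set_option autoImplicit false

open Complex MeasureTheory Set Filter Topology

namespace Pool.Agent.H58.MZ

open Pool.Agent.H28.MZ
open Pool.Agent.H23.GLH (PrimChar)
open Pool.Agent.H74.LI (bar)

lemma norm_conj_gc (κ : ℝ) (w : ℂ) : ‖gc κ ((starRingEnd ℂ) w)‖ = ‖gc κ w‖ := by
  rw [← gc_conj, RCLike.norm_conj]

/-- size of `L` far to the left -/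
lemma left_bound (π : PrimChar) (c : ℝ) (hc : 1 ≤ c) : ∃ C : ℝ, 0 < C ∧ ∀ (x t v : ℝ),
    1 / 4 ≤ x → x ≤ 1 / 2 → 2 ≤ t → |v| ≤ t / 2 →
    ‖π.L ((x : ℂ) + (((-c : ℝ) : ℂ) + v * I) + t * I)‖ ≤ C * t ^ (1 / 4 + c) := by
  haveI := π.q_ne
  obtain ⟨CY, hCY, hY⟩ := Pool.Agent.H89.DL.yb (1 + c)
  obtain ⟨ε, κ, hε, hκ, hfe⟩ := fe2 π
  have hZ := Pool.Agent.H61.GLH.Z32_nonneg
  have hq1 : (1 : ℝ) ≤ π.q := by
    have : 1 ≤ π.q := Nat.one_le_iff_ne_zero.mpr (NeZero.ne _)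
    exact_mod_cast this
  have hq0 : (0 : ℝ) < π.q := by linarith
  refine ⟨(π.q : ℝ) ^ (1 + c) * (Pool.Agent.H61.GLH.Z32 * (CY * (2 : ℝ) ^ (1 / 4 + c))) + 1,
    by positivity, ?_⟩
  intro x t v hx1 hx2 ht hv
  have ht0 : 0 < t := by linarith
  have hv' := abs_le.mp hv
  set w : ℂ := (x : ℂ) + (((-c : ℝ) : ℂ) + v * I) + t * I with hw
  have hwre : w.re = x - c := by simp [hw]; ring
  have hwim : w.im = v + t := by simp [hw]
  set u : ℂ := 1 - w with hu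
  have hure : u.re = 1 - x + c := by simp [hu, hwre]; ring
  have huim : u.im = -(v + t) := by simp [hu, hwim]
  have hu0 : u.im ≠ 0 := by
    rw [huim]
    have : 0 < v + t := by linarith
    linarith
  have h1 := (hfe u hu0).2
  have e1 : 1 - u = w := by rw [hu]; ring
  rw [e1] at h1
  have h2 := congrArg norm h1
  rw [norm_mul, norm_mul, norm_mul, RCLike.norm_conj, hε, one_mul] at h2
  have hexp : ‖cexp ((1 / 2 - u) * Real.log π.q)‖ = (π.q : ℝ) ^ (-(1 / 2 - x + c)) := by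
    rw [Complex.norm_exp, Real.rpow_def_of_pos hq0]
    congr 1
    have : (1 / 2 - u) * (Real.log π.q : ℂ) = ((Real.log π.q * (-(1 / 2 - x + c)) : ℝ) : ℂ) +
        ((Real.log π.q * (v + t) : ℝ) : ℂ) * I := by
      have : u = ((1 - x + c : ℝ) : ℂ) + ((-(v + t) : ℝ) : ℂ) * I := by
        apply Complex.ext
        · simp [hure]
        · simp [huim]
      rw [this]
      push_cast
      ring
    rw [this, add_re, ofReal_re, re_ofReal_mul, I_re, mul_zero, add_zero]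
  rw [hexp] at h2
  have hLu : ‖(bar π).L u‖ ≤ Pool.Agent.H61.GLH.Z32 :=
    Pool.Agent.H61.GLH.L_far (bar π) (by rw [hure]; linarith)
  have hgc : ‖gc κ u‖ ≤ CY * (v + t) ^ (1 / 2 - x + c) := by
    rw [← norm_conj_gc]
    have h3 := (hY κ hκ (1 - x + c) (v + t) (by linarith) (by linarith) (by linarith)).2
    have e2 : (starRingEnd ℂ) u = ((1 - x + c : ℝ) : ℂ) + ((v + t : ℝ) : ℂ) * I := by
      apply Complex.ext
      · simp [hure]
      · simp [huim]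
    have e3 : 1 - x + c - 1 / 2 = 1 / 2 - x + c := by ring
    rw [e3] at h3
    rw [e2]
    exact h3
  have hvt : (v + t) ^ (1 / 2 - x + c) ≤ (2 : ℝ) ^ (1 / 4 + c) * t ^ (1 / 4 + c) := by
    calc (v + t) ^ (1 / 2 - x + c) ≤ (2 * t) ^ (1 / 2 - x + c) := by
          apply Real.rpow_le_rpow (by linarith) (by linarith) (by linarith)
      _ ≤ (2 * t) ^ (1 / 4 + c) :=
          Real.rpow_le_rpow_of_exponent_le (by linarith) (by linarith)
      _ = _ := Real.mul_rpow (by norm_num) ht0.le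
  have hqpow : (π.q : ℝ) ^ (1 / 2 - x + c) ≤ (π.q : ℝ) ^ (1 + c) :=
    Real.rpow_le_rpow_of_exponent_le hq1 (by linarith)
  have h4 : ‖π.L w‖ = (π.q : ℝ) ^ (1 / 2 - x + c) * (‖(bar π).L u‖ * ‖gc κ u‖) := by
    rw [h2, ← mul_assoc, ← Real.rpow_add hq0]
    rw [add_neg_cancel, Real.rpow_zero, one_mul]
  rw [h4]
  calc _ ≤ (π.q : ℝ) ^ (1 + c) * (Pool.Agent.H61.GLH.Z32 * (CY * ((2 : ℝ) ^ (1 / 4 + c) * t ^ (1 / 4 + c)))) := by
        gcongr
        exact hgc.trans (by gcongr)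
    _ = (π.q : ℝ) ^ (1 + c) * (Pool.Agent.H61.GLH.Z32 * (CY * (2 : ℝ) ^ (1 / 4 + c))) *
        t ^ (1 / 4 + c) := by ring
    _ ≤ _ := by
        gcongr
        linarith

/-- coefficients of the long sum -/
noncomputable def am (π : PrimChar) (w : ℂ) (k : ℕ) : ℂ := co π k * cexp (-w * Real.log k)

lemma am_zero (π : PrimChar) (w : ℂ) : am π w 0 = 0 := by simp [am, co_zero]

lemma am_eq (π : PrimChar) (w : ℂ) (k : ℕ) : co π k * (k : ℂ) ^ (-w) = am π w k := by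
  unfold am
  by_cases h : k = 0
  · rw [h, co_zero]
    ring
  · rw [cpow_def_of_ne_zero (by exact_mod_cast h), ← natCast_log]
    congr 2
    push_cast
    ring

lemma line_L (hV : T_VV) (π : PrimChar) (x t M : ℝ) (hM : 0 < M) (hx : 0 < x) :
    Continuous (fun v : ℝ => cexp ((((1 : ℝ) : ℂ) + v * I) * Real.log M) *
      π.L (x + (((1 : ℝ) : ℂ) + v * I) + t * I)) ∧
    (∀ v : ℝ, ‖cexp ((((1 : ℝ) : ℂ) + v * I) * Real.log M) *
      π.L (x + (((1 : ℝ) : ℂ) + v * I) + t * I)‖ ≤ M * Dz (x + 1)) ∧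
    ∑' k : ℕ, co π k * (k : ℂ) ^ (-(x + t * I : ℂ)) * ((V (k / M) : ℝ) : ℂ) =
      (1 / (2 * Real.pi) : ℝ) * ∫ v : ℝ, cexp ((((1 : ℝ) : ℂ) + v * I) * Real.log M) *
        π.L (x + (((1 : ℝ) : ℂ) + v * I) + t * I) * ker 1 v := by
  set w : ℂ := (x : ℂ) + t * I with hw
  have hwre : w.re = x := by simp [hw]
  have hnorm : ∀ k : ℕ, ‖am π w k‖ * ((k : ℝ) / M) ^ (-(1 : ℝ)) ≤ M * (k : ℝ) ^ (-(x + 1)) := by
    intro k
    rcases Nat.eq_zero_or_pos k with rfl | hk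
    · rw [am_zero, norm_zero, zero_mul]
      positivity
    · have hk0 : (0 : ℝ) < k := by exact_mod_cast hk
      have h1 := norm_term_co π w k
      rw [hwre] at h1
      calc ‖am π w k‖ * ((k : ℝ) / M) ^ (-(1 : ℝ)) ≤ (k : ℝ) ^ (-x) * ((k : ℝ) / M) ^ (-(1 : ℝ)) := by
            unfold am
            gcongr
        _ = _ := by
            rw [Real.rpow_neg_one, inv_div, neg_add, Real.rpow_add hk0, Real.rpow_neg_one]
            field_simp
  have hs0 := summable_rpow (σ := x + 1) (by linarith)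
  have hs : Summable fun k : ℕ => ‖am π w k‖ * ((k : ℝ) / M) ^ (-(1 : ℝ)) :=
    Summable.of_nonneg_of_le (fun k => by positivity) hnorm (hs0.mul_left M)
  have hx' : ∀ k : ℕ, am π w k = 0 ∨ 0 < (k : ℝ) / M := by
    intro k
    rcases Nat.eq_zero_or_pos k with rfl | hk
    · left; exact am_zero π w
    · right
      have hk0 : (0 : ℝ) < k := by exact_mod_cast hk
      positivity
  obtain ⟨m1, m2, m3, m4, m5⟩ := mellin_sum hV (am π w) (fun k => (k : ℝ) / M) 1 one_pos hx' hs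
  have e : ∀ v : ℝ, ∑' k : ℕ, am π w k * cexp (-(((1 : ℝ) : ℂ) + v * I) * Real.log ((k : ℝ) / M)) =
      cexp ((((1 : ℝ) : ℂ) + v * I) * Real.log M) * π.L (x + (((1 : ℝ) : ℂ) + v * I) + t * I) := by
    intro v
    have h1 : 1 < ((x : ℂ) + (((1 : ℝ) : ℂ) + v * I) + t * I).re := by simp; linarith
    rw [← L_series π h1, ← tsum_mul_left]
    congr 1
    funext k
    rcases Nat.eq_zero_or_pos k with rfl | hk
    · rw [am_zero, co_zero]
      ring
    · have hk0 : (0 : ℝ) < k := by exact_mod_cast hk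
      unfold am
      rw [Real.log_div hk0.ne' hM.ne', mul_assoc, ← Complex.exp_add, mul_left_comm,
        ← Complex.exp_add]
      congr 2
      rw [hw]
      push_cast
      ring
  simp only [e] at m3 m4 m5
  refine ⟨m4, fun v => (m3 v).trans ?_, ?_⟩
  · calc _ ≤ ∑' k : ℕ, M * (k : ℝ) ^ (-(x + 1)) := hs.tsum_le_tsum hnorm (hs0.mul_left M)
      _ = M * Dz (x + 1) := tsum_mul_left
  · rw [← m5]
    congr 1
    funext k
    rw [am_eq]

/-- eventual inequalities -/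
lemma ev_small (K : ℝ) (p : ℝ) (hp : p < 0) : ∃ T₀ : ℝ, ∀ t : ℝ, T₀ ≤ t → K * t ^ p ≤ 1 := by
  have h1 : Tendsto (fun t : ℝ => K * t ^ p) atTop (𝓝 (K * 0)) := by
    have := tendsto_rpow_neg_atTop (y := -p) (by linarith)
    simp only [neg_neg] at this
    exact this.const_mul K
  rw [mul_zero] at h1
  have h2 := h1.eventually (ge_mem_nhds (show (0 : ℝ) < 1 by norm_num))
  obtain ⟨T, hT⟩ := eventually_atTop.mp h2
  exact ⟨T, hT⟩

lemma ev_gauss (K : ℝ) (p : ℝ) : ∃ T₀ : ℝ, ∀ t : ℝ, T₀ ≤ t →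
    K * t ^ p * Real.exp (-(t ^ 2 / 16)) ≤ 1 := by
  have h0 : Tendsto (fun t : ℝ => t ^ p * Real.exp (-1 * t)) atTop (𝓝 0) :=
    tendsto_rpow_mul_exp_neg_mul_atTop_nhds_zero p 1 one_pos
  have h1 : Tendsto (fun t : ℝ => |K| * (t ^ p * Real.exp (-1 * t))) atTop (𝓝 (|K| * 0)) :=
    h0.const_mul _
  rw [mul_zero] at h1
  have h2 := h1.eventually (ge_mem_nhds (show (0 : ℝ) < 1 by norm_num))
  obtain ⟨T, hT⟩ := eventually_atTop.mp h2
  refine ⟨max T 16, ?_⟩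
  intro t ht
  have ht1 : T ≤ t := (le_max_left _ _).trans ht
  have ht2 : 16 ≤ t := (le_max_right _ _).trans ht
  have ht0 : 0 < t := by linarith
  calc K * t ^ p * Real.exp (-(t ^ 2 / 16)) ≤ |K| * t ^ p * Real.exp (-1 * t) := by
        have e1 : Real.exp (-(t ^ 2 / 16)) ≤ Real.exp (-1 * t) := by
          apply Real.exp_le_exp.mpr
          nlinarith
        have e2 : K ≤ |K| := le_abs_self K
        gcongr
    _ = |K| * (t ^ p * Real.exp (-1 * t)) := by ring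
    _ ≤ 1 := hT t ht1

theorem sm (hV : T_VV) (hRC : T_RC) : T_SM := by
  intro π ε A hε hε2 hA
  haveI := π.q_ne
  obtain ⟨c, hc⟩ : ∃ c : ℝ, c = (A + 2) / ε := ⟨_, rfl⟩
  have hcε : c * ε = A + 2 := by rw [hc]; field_simp
  have hc1 : 1 ≤ c := by
    rw [hc, le_div_iff₀ hε]
    linarith
  have hc0 : 0 < c := by linarith
  obtain ⟨CL, hCL, hleft⟩ := left_bound π c hc1
  obtain ⟨C1, hC1, hp1⟩ := poly π c
  obtain ⟨K1, hK1, habs1⟩ := absorb C1
  obtain ⟨W0, hW0⟩ : ∃ W0 : ℝ, W0 = Real.exp (c ^ 2) / |c| := ⟨_, rfl⟩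
  obtain ⟨W1, hW1⟩ : ∃ W1 : ℝ, W1 = Real.exp ((1 : ℝ) ^ 2) / |(1 : ℝ)| := ⟨_, rfl⟩
  have hW00 : 0 < W0 := by rw [hW0]; positivity
  have hW10 : 0 < W1 := by rw [hW1]; positivity
  obtain ⟨R0, hR0⟩ : ∃ R0 : ℝ, R0 = Real.sqrt (Real.pi / (1 / 2)) := ⟨_, rfl⟩
  have hR00 : 0 < R0 := by rw [hR0]; positivity
  obtain ⟨D, hD⟩ : ∃ D : ℝ, D = Dz (5 / 4) := ⟨_, rfl⟩
  have hD0 : 0 ≤ D := by rw [hD]; exact Dz_nonneg _
  -- the constants of the three errors
  obtain ⟨Ka, hKa⟩ : ∃ Ka : ℝ, Ka = (1 + c) * (C1 * Real.exp (c ^ 2) * K1) + D * (W1 * R0) := ⟨_, rfl⟩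
  have hKa0 : 0 ≤ Ka := by rw [hKa]; positivity
  obtain ⟨Kb, hKb⟩ : ∃ Kb : ℝ, Kb = CL * (W0 * R0) := ⟨_, rfl⟩
  have hKb0 : 0 ≤ Kb := by rw [hKb]; positivity
  obtain ⟨Ta, hTa⟩ := ev_gauss (2 * Ka) (3 + A)
  obtain ⟨Tb, hTb⟩ := ev_small (2 * Kb) (-1) (by norm_num)
  refine ⟨max (max Ta Tb) 2, ?_⟩
  intro t x M hT hx1 hx2 hM1 hM2
  have hta : Ta ≤ t := ((le_max_left _ _).trans (le_max_left _ _)).trans hT
  have htb : Tb ≤ t := ((le_max_right _ _).trans (le_max_left _ _)).trans hT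
  have ht : 2 ≤ t := (le_max_right _ _).trans hT
  have ht0 : 0 < t := by linarith
  have ht1 : 1 ≤ t := by linarith
  have hMge : 1 ≤ M := by
    refine le_trans ?_ hM1
    exact Real.one_le_rpow ht1 (by linarith)
  have hM0 : 0 < M := by linarith
  obtain ⟨H, hH⟩ : ∃ H : ℝ, H = t / 2 := ⟨_, rfl⟩
  have hH1 : 1 ≤ H := by rw [hH]; linarith
  have hH0 : 0 < H := by linarith
  obtain ⟨Φ, hΦ⟩ : ∃ Φ : ℂ → ℂ, Φ = fun z => cexp (z * Real.log M) * π.L (x + z + t * I) *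
    cexp (z ^ 2) := ⟨_, rfl⟩
  have hΦd : ∀ z : ℂ, -H ≤ z.im → z.im ≤ H → DifferentiableAt ℂ Φ z := by
    intro z h1 h2
    have hne : (x : ℂ) + z + t * I ≠ 1 := by
      intro h
      have := congrArg Complex.im h
      simp at this
      rw [hH] at h1
      linarith
    have d1 : DifferentiableAt ℂ (fun z : ℂ => π.L (x + z + t * I)) z :=
      DifferentiableAt.comp (g := π.L) (f := fun z : ℂ => (x : ℂ) + z + t * I) z
        (differentiableAt_L π hne) (by fun_prop)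
    have d3 : DifferentiableAt ℂ (fun z : ℂ => cexp (z * Real.log M)) z := by fun_prop
    have d4 : DifferentiableAt ℂ (fun z : ℂ => cexp (z ^ 2)) z := by fun_prop
    rw [hΦ]
    exact (d3.mul d1).mul d4
  obtain ⟨B, hB⟩ : ∃ B : ℝ, B = M * (C1 * Real.exp (c ^ 2) * K1) * Real.exp (-(t ^ 2 / 16)) :=
    ⟨_, rfl⟩
  have hΦB : ∀ z : ℂ, -c ≤ z.re → z.re ≤ 1 → |z.im| = H → ‖Φ z‖ ≤ B := by
    intro z h1 h2 h3
    have him := abs_le.mp h3.le
    rw [hΦ]
    simp only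
    rw [norm_mul, norm_mul]
    have b1 : ‖cexp (z * Real.log M)‖ ≤ M := by
      rw [Complex.norm_exp]
      have : (z * Real.log M).re = Real.log M * z.re := by
        rw [re_mul_ofReal]
        ring
      rw [this, ← Real.rpow_def_of_pos hM0]
      calc M ^ z.re ≤ M ^ (1 : ℝ) := Real.rpow_le_rpow_of_exponent_le hMge h2
        _ = M := Real.rpow_one M
    have b2 : ‖cexp (z ^ 2)‖ ≤ Real.exp (c ^ 2) * Real.exp (-(t ^ 2 / 8)) := by
      rw [Complex.norm_exp, ← Real.exp_add]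
      apply Real.exp_le_exp.mpr
      have e1 : (z ^ 2).re = z.re ^ 2 - z.im ^ 2 := by
        rw [sq]
        simp
        ring
      rw [e1, ← sq_abs z.im, h3, hH]
      have e2 : z.re ^ 2 ≤ c ^ 2 := sq_le_sq' h1 (h2.trans hc1)
      have e3 : (t / 2) ^ 2 = t ^ 2 / 4 := by ring
      have e4 : 0 ≤ t ^ 2 := sq_nonneg t
      rw [e3]
      linarith
    have i1 : ((x : ℂ) + z + t * I).im = z.im + t := by simp
    have r1 : ((x : ℂ) + z + t * I).re = x + z.re := by simp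
    have hzi1 : t / 2 ≤ z.im + t := by rw [hH] at him; linarith
    have hzi2 : z.im + t ≤ 3 * t := by rw [hH] at him; linarith
    have b3 : ‖π.L (x + z + t * I)‖ ≤ C1 * (1 + 3 * t) ^ C1 := by
      have := hp1 _ (by rw [r1]; linarith : -c ≤ ((x : ℂ) + z + t * I).re)
        (by rw [i1, abs_of_pos (by linarith)]; linarith)
      refine this.trans ?_
      rw [i1, abs_of_pos (by linarith)]
      have h0 : 0 ≤ 1 + (z.im + t) := by linarith
      have h7 : 1 + (z.im + t) ≤ 1 + 3 * t := by linarith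
      exact mul_le_mul_of_nonneg_left (Real.rpow_le_rpow h0 h7 hC1.le) hC1.le
    calc ‖cexp (z * Real.log M)‖ * ‖π.L (x + z + t * I)‖ * ‖cexp (z ^ 2)‖
        ≤ M * (C1 * (1 + 3 * t) ^ C1) * (Real.exp (c ^ 2) * Real.exp (-(t ^ 2 / 8))) := by gcongr
      _ = M * (C1 * Real.exp (c ^ 2)) * ((1 + 3 * t) ^ C1 * Real.exp (-(t ^ 2 / 8))) := by ring
      _ ≤ M * (C1 * Real.exp (c ^ 2)) * (K1 * Real.exp (-(t ^ 2 / 16))) := by
          have := habs1 t ht0.le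
          gcongr
      _ = B := by rw [hB]; ring
  have hrect := rect_cauchy hRC Φ (-c) 1 H B (by linarith) one_pos hH1
    (fun z _ _ h1 h2 => hΦd z h1 h2) hΦB
  have hΦ0 : Φ 0 = π.L (x + t * I) := by
    rw [hΦ]
    simp
  obtain ⟨u1, u2, u3⟩ := line_L hV π x t M hM0 (by linarith)
  have hDz : Dz (x + 1) ≤ D := by rw [hD]; exact Dz_anti (by norm_num) (by linarith)
  have t1 := truncate _ 1 H (M * D) one_ne_zero hH0.le u1 (fun v => (u2 v).trans (by gcongr))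
  have i1 : ∀ v : ℝ, cexp ((((1 : ℝ) : ℂ) + v * I) * Real.log M) *
      π.L (x + (((1 : ℝ) : ℂ) + v * I) + t * I) * ker 1 v =
      Φ (((1 : ℝ) : ℂ) + v * I) / (((1 : ℝ) : ℂ) + v * I) := by
    intro v
    rw [hΦ]
    unfold ker
    ring
  simp only [i1] at u3 t1
  have hexpH : Real.exp (-(H ^ 2 / 2)) = Real.exp (-(t ^ 2 / 8)) := by
    rw [hH]
    congr 1
    ring
  rw [hexpH] at t1
  have hE1 : ‖((1 / (2 * Real.pi) : ℝ) : ℂ) *
      (∫ v in (-H)..H, Φ (((1 : ℝ) : ℂ) + v * I) / (((1 : ℝ) : ℂ) + v * I)) -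
      ∑' k : ℕ, co π k * (k : ℂ) ^ (-(x + t * I : ℂ)) * ((V (k / M) : ℝ) : ℂ)‖ ≤
      D * (W1 * R0) * (M * Real.exp (-(t ^ 2 / 16))) := by
    rw [u3, ← mul_sub, norm_mul, norm_sub_rev]
    have h8 : Real.exp (-(t ^ 2 / 8)) ≤ Real.exp (-(t ^ 2 / 16)) := by
      apply Real.exp_le_exp.mpr
      have := sq_nonneg t
      linarith
    calc _ ≤ 1 * (M * D * (Real.exp ((1 : ℝ) ^ 2) / |(1 : ℝ)| * Real.exp (-(t ^ 2 / 8)) *
          Real.sqrt (Real.pi / (1 / 2)))) := by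
          have := inv_two_pi_norm
          gcongr
      _ ≤ 1 * (M * D * (Real.exp ((1 : ℝ) ^ 2) / |(1 : ℝ)| * Real.exp (-(t ^ 2 / 16)) *
          Real.sqrt (Real.pi / (1 / 2)))) := by gcongr
      _ = _ := by rw [hW1, hR0]; ring
  -- the left side
  have hE2 : ‖∫ v in (-H)..H, Φ (((-c : ℝ) : ℂ) + v * I) / (((-c : ℝ) : ℂ) + v * I)‖ ≤
      Kb * t ^ (-A - 1) := by
    have e1 : ∀ v : ℝ, Φ (((-c : ℝ) : ℂ) + v * I) / (((-c : ℝ) : ℂ) + v * I) =
        (cexp ((((-c : ℝ) : ℂ) + v * I) * Real.log M) *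
          π.L (x + (((-c : ℝ) : ℂ) + v * I) + t * I)) * ker (-c) v := by
      intro v
      rw [hΦ]
      unfold ker
      ring
    simp only [e1]
    have h5 := interval_ker_norm (fun v : ℝ => cexp ((((-c : ℝ) : ℂ) + v * I) * Real.log M) *
          π.L (x + (((-c : ℝ) : ℂ) + v * I) + t * I)) (-c) H (CL * t ^ (-A - 1)) (by linarith)
      hH0.le (by
        intro v hv
        rw [norm_mul]
        have n1 : ‖cexp ((((-c : ℝ) : ℂ) + v * I) * Real.log M)‖ = M ^ (-c) := by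
          rw [Complex.norm_exp, Real.rpow_def_of_pos hM0]
          congr 1
          rw [re_mul_ofReal]
          simp
          ring
        have n2 := hleft x t v hx1 hx2 ht (by rw [← hH]; exact hv)
        have n3 : M ^ (-c) ≤ t ^ (-(c * (1 + ε))) := by
          calc M ^ (-c) ≤ (t ^ (1 + ε)) ^ (-c) :=
                Real.rpow_le_rpow_of_nonpos (by positivity) hM1 (by linarith)
            _ = _ := by
                rw [← Real.rpow_mul ht0.le]
                congr 1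
                ring
        have n4 : t ^ (-(c * (1 + ε))) * t ^ (1 / 4 + c) ≤ t ^ (-A - 1) := by
          rw [← Real.rpow_add ht0]
          apply Real.rpow_le_rpow_of_exponent_le ht1
          have : c * (1 + ε) = c + (A + 2) := by rw [mul_add, mul_one, hcε]
          rw [this]
          linarith
        have n5 : 1 ≤ Real.exp (v ^ 2 / 2) := Real.one_le_exp (by positivity)
        rw [n1]
        calc M ^ (-c) * ‖π.L (x + (((-c : ℝ) : ℂ) + v * I) + t * I)‖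
            ≤ t ^ (-(c * (1 + ε))) * (CL * t ^ (1 / 4 + c)) := by gcongr
          _ = CL * (t ^ (-(c * (1 + ε))) * t ^ (1 / 4 + c)) * 1 := by ring
          _ ≤ CL * t ^ (-A - 1) * Real.exp (v ^ 2 / 2) := by gcongr) (by positivity)
    refine h5.trans (le_of_eq ?_)
    rw [neg_sq, abs_neg, ← hW0, ← hR0, hKb]
    ring
  rw [hΦ0] at hrect
  generalize (∫ v in (-H)..H, Φ (((1 : ℝ) : ℂ) + v * I) / (((1 : ℝ) : ℂ) + v * I)) = Ic
    at hrect hE1
  generalize (∫ v in (-H)..H, Φ (((-c : ℝ) : ℂ) + v * I) / (((-c : ℝ) : ℂ) + v * I)) = Im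
    at hrect hE2
  generalize (∑' k : ℕ, co π k * (k : ℂ) ^ (-(x + t * I : ℂ)) * ((V (k / M) : ℝ) : ℂ)) = S
    at hE1 ⊢
  generalize π.L (x + t * I) = LL at hrect ⊢
  have hsplit : LL - S = -(((1 / (2 * Real.pi) : ℝ) : ℂ) * Ic -
      ((1 / (2 * Real.pi) : ℝ) : ℂ) * Im - LL) + (((1 / (2 * Real.pi) : ℝ) : ℂ) * Ic - S) -
      ((1 / (2 * Real.pi) : ℝ) : ℂ) * Im := by ring
  have hE2' : ‖((1 / (2 * Real.pi) : ℝ) : ℂ) * Im‖ ≤ Kb * t ^ (-A - 1) := by
    rw [norm_mul]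
    calc _ ≤ 1 * (Kb * t ^ (-A - 1)) := by
          have := inv_two_pi_norm
          gcongr
      _ = _ := one_mul _
  have hsum : ‖LL - S‖ ≤ Ka * (M * Real.exp (-(t ^ 2 / 16))) + Kb * t ^ (-A - 1) := by
    rw [hsplit]
    calc _ ≤ _ := norm_sub_le _ _
      _ ≤ (‖-(((1 / (2 * Real.pi) : ℝ) : ℂ) * Ic -
      ((1 / (2 * Real.pi) : ℝ) : ℂ) * Im - LL)‖ + ‖((1 / (2 * Real.pi) : ℝ) : ℂ) * Ic - S‖) +
          Kb * t ^ (-A - 1) := by
          gcongr
          exact norm_add_le _ _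
      _ ≤ ((1 - -c) * B + D * (W1 * R0) * (M * Real.exp (-(t ^ 2 / 16)))) +
          Kb * t ^ (-A - 1) := by
          rw [norm_neg]
          gcongr
      _ = _ := by rw [hB, hKa]; ring
  have f1 : Ka * (M * Real.exp (-(t ^ 2 / 16))) ≤ 1 / 2 * t ^ (-A) := by
    have h1 := hTa t hta
    have h2 : t ^ (3 + A) = t ^ (3 : ℝ) * t ^ A := Real.rpow_add ht0 _ _
    have h3 : t ^ (-A) * t ^ A = 1 := by rw [← Real.rpow_add ht0, neg_add_cancel, Real.rpow_zero]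
    have h4 : 0 < t ^ (-A) := by positivity
    calc Ka * (M * Real.exp (-(t ^ 2 / 16))) ≤ Ka * (t ^ (3 : ℝ) * Real.exp (-(t ^ 2 / 16))) := by
          gcongr
      _ = Ka * (t ^ (3 : ℝ) * Real.exp (-(t ^ 2 / 16))) * (t ^ (-A) * t ^ A) := by
          rw [h3, mul_one]
      _ = 1 / 2 * t ^ (-A) * (2 * Ka * (t ^ (3 : ℝ) * t ^ A) * Real.exp (-(t ^ 2 / 16))) := by ring
      _ ≤ 1 / 2 * t ^ (-A) * 1 := by
          rw [h2] at h1
          gcongr
      _ = _ := mul_one _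
  have f2 : Kb * t ^ (-A - 1) ≤ 1 / 2 * t ^ (-A) := by
    have h1 := hTb t htb
    have h2 : t ^ (-A - 1) = t ^ (-A) * t ^ (-1 : ℝ) := by
      rw [← Real.rpow_add ht0]
      rfl
    rw [h2]
    have h4 : 0 < t ^ (-A) := by positivity
    calc Kb * (t ^ (-A) * t ^ (-1 : ℝ)) = 1 / 2 * t ^ (-A) * (2 * Kb * t ^ (-1 : ℝ)) := by ring
      _ ≤ 1 / 2 * t ^ (-A) * 1 := by gcongr
      _ = _ := mul_one _
  calc _ ≤ _ := hsum
    _ ≤ 1 / 2 * t ^ (-A) + 1 / 2 * t ^ (-A) := add_le_add f1 f2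
    _ = _ := by ring

end Pool.Agent.H58.MZ
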