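import Pool.Agent.H58.MZ.Zq

/-!
# (SY) asymptotic expansion of the smooth sum `Sy`.  helper58
-/

set_option autoImplicit false

open Complex MeasureTheory Set Filter Topology

namespace Pool.Agent.H58.MZ

open Pool.Agent.H28.MZ
open Pool.Agent.H23.GLH (PrimChar)
open DirichletCharacter (LFunctionTrivChar LFunctionTrivChar₁)

open scoped Classical in
/-- coefficients of `Sy` -/
noncomputable def ay (q : ℕ) (s : ℝ) (l : ℕ) : ℂ :=
  if 1 ≤ l ∧ Nat.Coprime l q then (((l : ℝ) ^ (-s) : ℝ) : ℂ) else 0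

lemma Sy_eq (q : ℕ) (s Y : ℝ) :
    ((Sy q s Y : ℝ) : ℂ) = ∑' l : ℕ, ay q s l * ((V ((l : ℝ) ^ 2 / Y) : ℝ) : ℂ) := by
  rw [Sy, ofReal_tsum]
  congr 1
  funext l
  unfold ay
  split_ifs <;> simp

/-- `Y^z e^{z²}` -/
noncomputable def yz (Y : ℝ) (z : ℂ) : ℂ := cexp (z * Real.log Y) * cexp (z ^ 2)

lemma norm_yz (Y : ℝ) (hY : 0 < Y) (z : ℂ) :
    ‖yz Y z‖ = Y ^ z.re * Real.exp (z.re ^ 2 - z.im ^ 2) := by
  rw [yz, norm_mul, Complex.norm_exp, Complex.norm_exp, Real.rpow_def_of_pos hY]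
  congr 2
  · simp
    ring
  · rw [sq]
    simp
    ring

lemma differentiable_yz (Y : ℝ) : Differentiable ℂ (yz Y) := by
  unfold yz
  fun_prop

lemma exp_trade (x y : ℝ) : Real.exp (x ^ 2 - y ^ 2) * Real.exp (2 * |y|) ≤
    Real.exp (x ^ 2 + 3) * Real.exp (-|y|) := by
  rw [← Real.exp_add, ← Real.exp_add]
  apply Real.exp_le_exp.mpr
  have h : y ^ 2 = |y| ^ 2 := (sq_abs y).symm
  rw [h]
  nlinarith [sq_nonneg (|y| - 3 / 2)]

lemma exp_trade2 (x y : ℝ) : Real.exp (x ^ 2 - y ^ 2) * Real.exp (2 * |y|) ≤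
    Real.exp (x ^ 2 + 2) * Real.exp (-(1 / 2) * y ^ 2) := by
  rw [← Real.exp_add, ← Real.exp_add]
  apply Real.exp_le_exp.mpr
  have h : y ^ 2 = |y| ^ 2 := (sq_abs y).symm
  rw [h]
  nlinarith [sq_nonneg (|y| - 2)]

theorem sy (hV : T_VV) (hS : T_SH) : T_SY := by
  intro q A hq1 hA
  haveI : NeZero q := ⟨by omega⟩
  obtain ⟨K, hK, hKb⟩ := hq_bound q (2 * A + 4)
  set f : ℝ := rq q with hf
  have hf0 : 0 ≤ f := rq_nonneg q
  have hf1 : f ≤ 1 := rq_le_one q hq1
  set C : ℝ := (K + 1) * Real.exp (A ^ 2 + 2) * Real.sqrt (Real.pi / (1 / 2)) with hC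
  refine ⟨C + 1, by positivity, ?_⟩
  intro s Y hs1 hs2 hs3 hY
  have hpi : (Real.pi : ℂ) ≠ 0 := ofReal_ne_zero.mpr Real.pi_pos.ne'
  -- the pole
  set z₀ : ℝ := (1 - s) / 2 with hz₀
  have hz0 : z₀ ≠ 0 := by
    rw [hz₀]
    intro h
    apply hs3
    linarith
  have hz0C : (z₀ : ℂ) ≠ 0 := ofReal_ne_zero.mpr hz0
  -- the functions
  set F1 : ℂ → ℂ := fun z => yz Y z * hq q (s + 2 * z) with hF1
  have hdh := differentiable_hq q
  have hF1d : Differentiable ℂ F1 := by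
    have h1 : Differentiable ℂ (fun z : ℂ => hq q (s + 2 * z)) :=
      hdh.comp (by fun_prop)
    exact (differentiable_yz Y).mul h1
  set M0 : ℝ := Real.exp ((A + 1) * |Real.log Y|) with hM0
  have hYpow : ∀ x : ℝ, -A ≤ x → x ≤ 1 → Y ^ x ≤ M0 := by
    intro x h1 h2
    rw [Real.rpow_def_of_pos hY, hM0]
    apply Real.exp_le_exp.mpr
    have h3 : |x| ≤ A + 1 := by rw [abs_le]; constructor <;> linarith
    calc Real.log Y * x ≤ |Real.log Y * x| := le_abs_self _
      _ = |x| * |Real.log Y| := by rw [abs_mul, mul_comm]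
      _ ≤ _ := by gcongr
  have hhq : ∀ z : ℂ, -A ≤ z.re → z.re ≤ 1 → ‖hq q (s + 2 * z)‖ ≤ K * Real.exp (2 * |z.im|) := by
    intro z h1 h2
    have h3 := hKb ((s : ℂ) + 2 * z) (by simp; linarith) (by simp; linarith)
    have h4 : ((s : ℂ) + 2 * z).im = 2 * z.im := by simp
    rw [h4, abs_mul, abs_two] at h3
    exact h3
  have hsq : ∀ x : ℝ, -A ≤ x → x ≤ 1 → x ^ 2 ≤ A ^ 2 := by
    intro x h1 h2
    apply sq_le_sq'
    · linarith
    · linarith
  have hF1b : ∀ z : ℂ, -A ≤ z.re → z.re ≤ 1 →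
      ‖F1 z‖ ≤ M0 * K * Real.exp (A ^ 2 + 3) * Real.exp (-|z.im|) := by
    intro z h1 h2
    simp only [hF1]
    rw [norm_mul, norm_yz Y hY]
    calc Y ^ z.re * Real.exp (z.re ^ 2 - z.im ^ 2) * ‖hq q (s + 2 * z)‖
        ≤ M0 * Real.exp (z.re ^ 2 - z.im ^ 2) * (K * Real.exp (2 * |z.im|)) := by
          have := hYpow z.re h1 h2
          have := hhq z h1 h2
          gcongr
      _ = M0 * K * (Real.exp (z.re ^ 2 - z.im ^ 2) * Real.exp (2 * |z.im|)) := by ring
      _ ≤ M0 * K * (Real.exp (z.re ^ 2 + 3) * Real.exp (-|z.im|)) := by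
          have := exp_trade z.re z.im
          gcongr
      _ ≤ M0 * K * (Real.exp (A ^ 2 + 3) * Real.exp (-|z.im|)) := by
          have := hsq z.re h1 h2
          gcongr
      _ = _ := by ring
  have hF2b : ∀ z : ℂ, -A ≤ z.re → z.re ≤ 1 →
      ‖yz Y z‖ ≤ M0 * Real.exp (A ^ 2 + 3) * Real.exp (-|z.im|) := by
    intro z h1 h2
    rw [norm_yz Y hY]
    calc Y ^ z.re * Real.exp (z.re ^ 2 - z.im ^ 2)
        ≤ M0 * (Real.exp (z.re ^ 2 - z.im ^ 2) * 1) := by
          have := hYpow z.re h1 h2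
          rw [mul_one]
          gcongr
      _ ≤ M0 * (Real.exp (z.re ^ 2 - z.im ^ 2) * Real.exp (2 * |z.im|)) := by
          have : 1 ≤ Real.exp (2 * |z.im|) := Real.one_le_exp (by positivity)
          gcongr
      _ ≤ M0 * (Real.exp (z.re ^ 2 + 3) * Real.exp (-|z.im|)) := by
          have := exp_trade z.re z.im
          gcongr
      _ ≤ M0 * (Real.exp (A ^ 2 + 3) * Real.exp (-|z.im|)) := by
          have := hsq z.re h1 h2
          gcongr
      _ = _ := by ring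
  -- the three contour shifts
  have hz0a : -A < z₀ := by rw [hz₀]; linarith
  have hz0b : z₀ < 1 := by rw [hz₀]; linarith
  have s1 := hS F1 (-A) 1 (M0 * K * Real.exp (A ^ 2 + 3)) 0 (by simp; linarith) (by simp)
    (fun z _ _ => hF1d z) hF1b
  have s2 := hS (yz Y) (-A) 1 (M0 * Real.exp (A ^ 2 + 3)) 0 (by simp; linarith) (by simp)
    (fun z _ _ => differentiable_yz Y z) hF2b
  have s3 := hS (yz Y) (-A) 1 (M0 * Real.exp (A ^ 2 + 3)) (z₀ : ℂ) (by simpa using hz0a)
    (by simpa using hz0b) (fun z _ _ => differentiable_yz Y z) hF2b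
  -- integrability
  have contF1 : ∀ c : ℝ, Continuous (fun t : ℝ => F1 (c + t * I)) := fun c =>
    hF1d.continuous.comp (by fun_prop)
  have contF2 : ∀ c : ℝ, Continuous (fun t : ℝ => yz Y (c + t * I)) := fun c =>
    (differentiable_yz Y).continuous.comp (by fun_prop)
  have i1 : ∀ c : ℝ, -A ≤ c → c ≤ 1 → c ≠ 0 →
      Integrable (fun t : ℝ => F1 (c + t * I) / (c + t * I - 0)) := by
    intro c h1 h2 h3
    refine line_integrable F1 c (M0 * K * Real.exp (A ^ 2 + 3)) 0 (contF1 c) (fun t => ?_)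
      (by simpa using h3)
    have := hF1b ((c : ℂ) + t * I) (by simpa using h1) (by simpa using h2)
    simpa using this
  have i2 : ∀ (c : ℝ) (p : ℂ), -A ≤ c → c ≤ 1 → c ≠ p.re →
      Integrable (fun t : ℝ => yz Y (c + t * I) / (c + t * I - p)) := by
    intro c p h1 h2 h3
    refine line_integrable (yz Y) c (M0 * Real.exp (A ^ 2 + 3)) p (contF2 c) (fun t => ?_) h3
    have := hF2b ((c : ℂ) + t * I) (by simpa using h1) (by simpa using h2)
    simpa using this
  -- the combined integrand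
  set fc : ℂ := (f : ℂ) / (2 * z₀) with hfc
  set Φ : ℝ → ℝ → ℂ := fun c t => F1 (c + t * I) / (c + t * I - 0) +
    fc * (yz Y (c + t * I) / (c + t * I - z₀) - yz Y (c + t * I) / (c + t * I - 0)) with hΦ
  have hΦint : ∀ c : ℝ, -A ≤ c → c ≤ 1 → c ≠ 0 → c ≠ z₀ → ∫ t : ℝ, Φ c t =
      (∫ t : ℝ, F1 (c + t * I) / (c + t * I - 0)) +
      fc * ((∫ t : ℝ, yz Y (c + t * I) / (c + t * I - z₀)) -
        ∫ t : ℝ, yz Y (c + t * I) / (c + t * I - 0)) := by
    intro c h1 h2 h3 h4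
    have j1 := i1 c h1 h2 h3
    have j2 := i2 c z₀ h1 h2 (by simpa using h4)
    have j3 := i2 c 0 h1 h2 (by simpa using h3)
    have j4 : Integrable (fun t : ℝ => fc * (yz Y (c + t * I) / (c + t * I - z₀) -
        yz Y (c + t * I) / (c + t * I - 0))) := (j2.sub j3).const_mul fc
    simp only [hΦ]
    rw [integral_add j1 j4, integral_const_mul, integral_sub j2 j3]
  -- identity of the kernel
  have hΦeq : ∀ c t : ℝ, c ≠ 0 → c ≠ z₀ → Φ c t = F1 (c + t * I) / (c + t * I) +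
      (f / 2) * (yz Y (c + t * I) / ((c + t * I) * (c + t * I - z₀))) := by
    intro c t h1 h2
    have n1 : (c : ℂ) + t * I ≠ 0 := ne_zero_of_re h1 t
    have n2 : (c : ℂ) + t * I - z₀ ≠ 0 := by
      intro h
      apply h2
      have := congrArg Complex.re h
      simp at this
      linarith
    simp only [hΦ, hfc, sub_zero]
    generalize (c : ℂ) + t * I = z at n1 n2 ⊢
    field_simp
    ring
  -- the sum as an integral
  have hx : ∀ l : ℕ, ay q s l = 0 ∨ 0 < (l : ℝ) ^ 2 / Y := by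
    intro l
    by_cases h : 1 ≤ l
    · right
      have : (0 : ℝ) < l := by exact_mod_cast h
      positivity
    · left
      unfold ay
      rw [if_neg (fun h' => h h'.1)]
  have hsummable : Summable fun l : ℕ => ‖ay q s l‖ * ((l : ℝ) ^ 2 / Y) ^ (-(1 : ℝ)) := by
    have h1 : Summable fun l : ℕ => Y * (l : ℝ) ^ (-(s + 2)) :=
      (Real.summable_nat_rpow.mpr (by linarith)).mul_left Y
    refine Summable.of_nonneg_of_le (fun l => by positivity) (fun l => ?_) h1
    unfold ay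
    split_ifs with h
    · have hl : (0 : ℝ) < l := by exact_mod_cast h.1
      rw [norm_real, Real.norm_eq_abs, abs_of_nonneg (by positivity)]
      apply le_of_eq
      rw [Real.rpow_neg_one, inv_div, neg_add, Real.rpow_add hl, Real.rpow_neg hl.le 2]
      norm_num
      field_simp
    · simp only [norm_zero, zero_mul]
      positivity
  obtain ⟨m1, m2, m3, m4, m5⟩ := mellin_sum hV (ay q s) (fun l => (l : ℝ) ^ 2 / Y) 1 one_pos hx
    hsummable
  have hker : ∀ t : ℝ, (∑' l : ℕ, ay q s l * cexp (-(((1 : ℝ) : ℂ) + t * I) *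
      Real.log ((l : ℝ) ^ 2 / Y))) * ker 1 t = Φ 1 t := by
    intro t
    rw [hΦeq 1 t one_ne_zero hz0b.ne']
    set z : ℂ := ((1 : ℝ) : ℂ) + t * I with hz
    have hzre : z.re = 1 := by simp [hz]
    have n1 : z ≠ 0 := ne_zero_of_re one_ne_zero t
    have n2 : z - z₀ ≠ 0 := by
      intro h
      have := congrArg Complex.re h
      simp [hzre] at this
      linarith
    have hw : 1 < ((s : ℂ) + 2 * z).re := by
      simp [hzre]
      linarith
    have hw1 : (s : ℂ) + 2 * z ≠ 1 := by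
      intro h
      rw [h] at hw
      simp at hw
    have e1 : ∀ l : ℕ, ay q s l * cexp (-z * Real.log ((l : ℝ) ^ 2 / Y)) =
        cexp (z * Real.log Y) *
          (if 1 ≤ l ∧ Nat.Coprime l q then cexp (-((s : ℂ) + 2 * z) * Real.log l) else 0) := by
      intro l
      unfold ay
      split_ifs with h
      · have hl : (0 : ℝ) < l := by exact_mod_cast h.1
        rw [Real.rpow_def_of_pos hl, ofReal_exp, Real.log_div (by positivity) hY.ne',
          Real.log_pow, ← Complex.exp_add, ← Complex.exp_add]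
        congr 1
        push_cast
        ring
      · simp
    have e2 := series q _ hw
    simp only [e1]
    rw [tsum_mul_left, e2]
    have e3 : LFunctionTrivChar q ((s : ℂ) + 2 * z) = hq q ((s : ℂ) + 2 * z) +
        (f : ℂ) / ((s : ℂ) + 2 * z - 1) := by
      rw [hq_eq q _ hw1]
      ring
    have e4 : (s : ℂ) + 2 * z - 1 = 2 * (z - z₀) := by
      rw [hz₀]
      push_cast
      ring
    rw [e3, e4]
    simp only [hF1, yz, ker]
    rw [← hz]
    field_simp
  have hSyI : ((Sy q s Y : ℝ) : ℂ) = (1 / (2 * Real.pi) : ℝ) * ∫ t : ℝ, Φ 1 t := by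
    rw [Sy_eq, m5]
    congr 2
    funext t
    exact hker t
  -- the final identity
  have hAne : -A ≠ 0 := by linarith
  have hAz : -A ≠ z₀ := hz0a.ne
  have hI1 := hΦint 1 (by linarith) le_rfl one_ne_zero hz0b.ne'
  have hI2 := hΦint (-A) le_rfl (by linarith) hAne hAz
  have hvalue : ((Sy q s Y : ℝ) : ℂ) - (1 / (2 * Real.pi) : ℝ) * (∫ t : ℝ, Φ (-A) t) =
      LFunctionTrivChar q (s : ℂ) +
        ((f * Y ^ z₀ * Real.exp (z₀ ^ 2) / (1 - s) : ℝ) : ℂ) := by
    rw [hSyI, hI1, hI2]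
    have v1 : F1 0 = LFunctionTrivChar q (s : ℂ) - (f : ℂ) / (s - 1) := by
      simp only [hF1, yz]
      have : (s : ℂ) ≠ 1 := by exact_mod_cast hs3
      rw [← hq_eq q _ this]
      simp
    have v2 : yz Y 0 = 1 := by simp [yz]
    have v3 : yz Y (z₀ : ℂ) = ((Y ^ z₀ * Real.exp (z₀ ^ 2) : ℝ) : ℂ) := by
      rw [yz, Real.rpow_def_of_pos hY]
      push_cast
      rw [mul_comm (z₀ : ℂ)]
    rw [v1] at s1
    rw [v2] at s2
    rw [v3] at s3
    have hs1' : (s : ℂ) - 1 ≠ 0 := by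
      rw [sub_ne_zero]
      exact_mod_cast hs3
    have hs1'' : (1 : ℂ) - s ≠ 0 := by
      rw [sub_ne_zero]
      exact_mod_cast (Ne.symm hs3)
    have hfc2 : fc = (f : ℂ) / (1 - s) := by
      rw [hfc, hz₀]
      push_cast
      congr 1
      ring
    have hfs : (f : ℂ) / (s - 1) = -((f : ℂ) / (1 - s)) := by
      rw [← div_neg]
      congr 1
      ring
    rw [hfs] at s1
    rw [hfc2]
    have e5 : ((f * Y ^ z₀ * Real.exp (z₀ ^ 2) / (1 - s) : ℝ) : ℂ) =
        (f : ℂ) / (1 - s) * ((Y ^ z₀ * Real.exp (z₀ ^ 2) : ℝ) : ℂ) := by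
      push_cast
      field_simp
    rw [e5]
    linear_combination s1 + (f : ℂ) / (1 - s) * (s3 - s2)
  -- the bound on the line `Re z = -A`
  have hrest : ‖((1 / (2 * Real.pi) : ℝ) : ℂ) * ∫ t : ℝ, Φ (-A) t‖ ≤ C * Y ^ (-A) := by
    have hb : ∀ t : ℝ, ‖Φ (-A) t‖ ≤ Y ^ (-A) * (K + 1) * Real.exp (A ^ 2 + 2) *
        Real.exp (-(1 / 2) * t ^ 2) := by
      intro t
      rw [hΦeq (-A) t hAne hAz]
      set z : ℂ := ((-A : ℝ) : ℂ) + t * I with hz
      have hzre : z.re = -A := by simp [hz]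
      have hzim : z.im = t := by simp [hz]
      have n1 : 1 ≤ ‖z‖ := by
        have := Complex.abs_re_le_norm z
        rw [hzre, abs_neg, abs_of_pos (by linarith)] at this
        linarith
      have n2 : 1 / 2 ≤ ‖z - z₀‖ := by
        have := Complex.abs_re_le_norm (z - z₀)
        simp only [sub_re, ofReal_re, hzre] at this
        rw [abs_of_neg (by linarith)] at this
        rw [hz₀] at this
        rw [hz₀]
        linarith
      have b1 := hhq z (by rw [hzre]) (by rw [hzre]; linarith)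
      have b2 : ‖yz Y z‖ = Y ^ (-A) * Real.exp (A ^ 2 - t ^ 2) := by
        rw [norm_yz Y hY, hzre, hzim, neg_sq]
      rw [hzim] at b1
      have b3 : ‖F1 z / z‖ ≤ Y ^ (-A) * Real.exp (A ^ 2 - t ^ 2) * (K * Real.exp (2 * |t|)) := by
        rw [norm_div]
        calc ‖F1 z‖ / ‖z‖ ≤ ‖F1 z‖ / 1 := by gcongr
          _ = ‖yz Y z‖ * ‖hq q (s + 2 * z)‖ := by
            rw [div_one]
            simp only [hF1]
            rw [norm_mul]
          _ ≤ _ := by
            rw [b2]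
            gcongr
      have b4 : ‖((f : ℂ) / 2) * (yz Y z / (z * (z - z₀)))‖ ≤
          Y ^ (-A) * Real.exp (A ^ 2 - t ^ 2) := by
        rw [norm_mul, norm_div, norm_div, norm_mul, norm_real, Real.norm_eq_abs,
          abs_of_nonneg hf0, b2]
        have h2 : ‖(2 : ℂ)‖ = 2 := by simp
        rw [h2]
        have h3 : 1 * (1 / 2) ≤ ‖z‖ * ‖z - z₀‖ := by gcongr
        have h4 : 0 ≤ Y ^ (-A) * Real.exp (A ^ 2 - t ^ 2) := by positivity
        calc f / 2 * (Y ^ (-A) * Real.exp (A ^ 2 - t ^ 2) / (‖z‖ * ‖z - z₀‖))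
            ≤ 1 / 2 * (Y ^ (-A) * Real.exp (A ^ 2 - t ^ 2) / (1 * (1 / 2))) := by gcongr
          _ = _ := by ring
      have b5 := exp_trade2 A t
      have b6 : 1 ≤ Real.exp (2 * |t|) := Real.one_le_exp (by positivity)
      have b7 : 0 ≤ Y ^ (-A) * Real.exp (A ^ 2 - t ^ 2) := by positivity
      calc _ ≤ _ := norm_add_le _ _
        _ ≤ Y ^ (-A) * Real.exp (A ^ 2 - t ^ 2) * (K * Real.exp (2 * |t|)) +
            Y ^ (-A) * Real.exp (A ^ 2 - t ^ 2) := add_le_add b3 b4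
        _ ≤ Y ^ (-A) * Real.exp (A ^ 2 - t ^ 2) * (K * Real.exp (2 * |t|)) +
            Y ^ (-A) * Real.exp (A ^ 2 - t ^ 2) * Real.exp (2 * |t|) := by
          have := mul_le_mul_of_nonneg_left b6 b7
          linarith
        _ = Y ^ (-A) * (K + 1) * (Real.exp (A ^ 2 - t ^ 2) * Real.exp (2 * |t|)) := by ring
        _ ≤ Y ^ (-A) * (K + 1) * (Real.exp (A ^ 2 + 2) * Real.exp (-(1 / 2) * t ^ 2)) := by
          have : 0 ≤ Y ^ (-A) * (K + 1) := by positivity
          gcongr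
        _ = _ := by ring
    have hgi : Integrable (fun t : ℝ => Y ^ (-A) * (K + 1) * Real.exp (A ^ 2 + 2) *
        Real.exp (-(1 / 2) * t ^ 2)) := (integrable_exp_neg_mul_sq (b := 1 / 2) (by norm_num)).const_mul _
    have h1 : ‖∫ t : ℝ, Φ (-A) t‖ ≤ ∫ t : ℝ, Y ^ (-A) * (K + 1) * Real.exp (A ^ 2 + 2) *
        Real.exp (-(1 / 2) * t ^ 2) :=
      norm_integral_le_of_norm_le hgi (Eventually.of_forall hb)
    rw [integral_const_mul, integral_gaussian] at h1
    rw [norm_mul]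
    have h2 : ‖((1 / (2 * Real.pi) : ℝ) : ℂ)‖ ≤ 1 := by
      rw [norm_real, Real.norm_eq_abs, abs_of_pos (by positivity), div_le_one (by positivity)]
      have := Real.pi_gt_three
      linarith
    calc _ ≤ 1 * (Y ^ (-A) * (K + 1) * Real.exp (A ^ 2 + 2) *
          Real.sqrt (Real.pi / (1 / 2))) := by gcongr
      _ = _ := by rw [hC]; ring
  -- conclusion
  rw [zq_eq q s hs3]
  have hD : ((Sy q s Y : ℝ) : ℂ) - LFunctionTrivChar q (s : ℂ) -
      ((f * Y ^ z₀ * Real.exp (z₀ ^ 2) / (1 - s) : ℝ) : ℂ) =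
      (1 / (2 * Real.pi) : ℝ) * ∫ t : ℝ, Φ (-A) t := by
    linear_combination hvalue
  have hre := congrArg Complex.re hD
  simp only [sub_re, ofReal_re] at hre
  have hgoal : Sy q s Y - (LFunctionTrivChar q (s : ℂ)).re -
      (Nat.totient q : ℝ) / q * Y ^ ((1 - s) / 2) * Real.exp (((1 - s) / 2) ^ 2) / (1 - s) =
      ((((1 / (2 * Real.pi) : ℝ) : ℂ) * ∫ t : ℝ, Φ (-A) t)).re := by
    rw [← hre]
    rfl
  rw [hgoal]
  calc _ ≤ ‖((1 / (2 * Real.pi) : ℝ) : ℂ) * ∫ t : ℝ, Φ (-A) t‖ := Complex.abs_re_le_norm _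
    _ ≤ C * Y ^ (-A) := hrest
    _ ≤ (C + 1) * Y ^ (-A) := by
      have : 0 ≤ Y ^ (-A) := by positivity
      nlinarith

end Pool.Agent.H58.MZ
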