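import Pool.Agent.H58.MZ.Zq
import Pool.Agent.H58.MZ.Rect

/-!
# Dirichlet series and the functional equation.  helper58
-/

set_option autoImplicit false

open Complex MeasureTheory Set Filter Topology

namespace Pool.Agent.H58.MZ

open Pool.Agent.H28.MZ
open Pool.Agent.H23.GLH (PrimChar)
open Pool.Agent.H74.LI (bar)

lemma norm_co_le (π : PrimChar) (n : ℕ) : ‖co π n‖ ≤ 1 := by
  unfold co
  split_ifs
  · simp
  · exact DirichletCharacter.norm_le_one _ _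

lemma co_zero (π : PrimChar) : co π 0 = 0 := by simp [co]

lemma norm_exp_log (w : ℂ) {x : ℝ} (hx : 0 < x) : ‖cexp (-w * Real.log x)‖ = x ^ (-w.re) := by
  rw [Complex.norm_exp, Real.rpow_def_of_pos hx]
  congr 1
  simp
  ring

lemma norm_term_co (π : PrimChar) (w : ℂ) (n : ℕ) :
    ‖co π n * cexp (-w * Real.log n)‖ ≤ (n : ℝ) ^ (-w.re) := by
  rcases Nat.eq_zero_or_pos n with rfl | hn
  · rw [co_zero, zero_mul, norm_zero]
    positivity
  · have hn0 : (0 : ℝ) < n := by exact_mod_cast hn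
    rw [norm_mul, norm_exp_log w hn0]
    have := norm_co_le π n
    have h2 : 0 ≤ (n : ℝ) ^ (-w.re) := by positivity
    nlinarith

lemma norm_term_co' (π : PrimChar) (w : ℂ) (n : ℕ) :
    ‖(starRingEnd ℂ) (co π n) * cexp (-w * Real.log n)‖ ≤ (n : ℝ) ^ (-w.re) := by
  rw [norm_mul, RCLike.norm_conj, ← norm_mul]
  exact norm_term_co π w n

lemma summable_rpow {σ : ℝ} (h : 1 < σ) : Summable fun n : ℕ => (n : ℝ) ^ (-σ) :=
  Real.summable_nat_rpow.mpr (by linarith)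

lemma summable_L (π : PrimChar) {w : ℂ} (hw : 1 < w.re) :
    Summable fun n : ℕ => ‖co π n * cexp (-w * Real.log n)‖ :=
  Summable.of_nonneg_of_le (fun _ => norm_nonneg _) (norm_term_co π w) (summable_rpow hw)

lemma summable_L' (π : PrimChar) {w : ℂ} (hw : 1 < w.re) :
    Summable fun n : ℕ => ‖(starRingEnd ℂ) (co π n) * cexp (-w * Real.log n)‖ :=
  Summable.of_nonneg_of_le (fun _ => norm_nonneg _) (norm_term_co' π w) (summable_rpow hw)

lemma term_eq {z : ℂ} (c : ℂ) {n : ℕ} (hn : n ≠ 0) :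
    c / (n : ℂ) ^ z = c * cexp (-z * Real.log n) := by
  rw [cpow_def_of_ne_zero (by exact_mod_cast hn), div_eq_mul_inv, ← Complex.exp_neg, ← natCast_log]
  congr 2
  push_cast
  ring

lemma L_series (π : PrimChar) {w : ℂ} (hw : 1 < w.re) :
    ∑' n : ℕ, co π n * cexp (-w * Real.log n) = π.L w := by
  haveI := π.q_ne
  unfold PrimChar.L
  rw [DirichletCharacter.LFunction_eq_LSeries _ hw, LSeries]
  congr 1
  funext n
  rw [LSeries.term_def]
  by_cases hn : n = 0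
  · simp [hn, co]
  · rw [if_neg hn, term_eq _ hn, co, if_neg hn]

lemma co_bar (π : PrimChar) (n : ℕ) : co (bar π) n = (starRingEnd ℂ) (co π n) := by
  haveI := π.q_ne
  unfold co
  split_ifs
  · simp
  · have h := MulChar.star_apply' π.χ (n : ZMod π.q)
    rw [← starRingEnd_apply] at h
    rw [h]
    rfl

lemma Lbar_series (π : PrimChar) {w : ℂ} (hw : 1 < w.re) :
    ∑' n : ℕ, (starRingEnd ℂ) (co π n) * cexp (-w * Real.log n) = (bar π).L w := by
  rw [← L_series (bar π) hw]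
  congr 1
  funext n
  rw [co_bar]

lemma Lbar_conj (π : PrimChar) {w : ℂ} (hw : w ≠ 1) :
    (bar π).L ((starRingEnd ℂ) w) = (starRingEnd ℂ) (π.L w) := by
  haveI := π.q_ne
  exact Pool.Agent.H23.GLH.LFunction_conj (χ := π.χ) hw

lemma differentiableAt_L (π : PrimChar) {w : ℂ} (hw : w ≠ 1) : DifferentiableAt ℂ π.L w := by
  haveI := π.q_ne
  exact DirichletCharacter.differentiableAt_LFunction _ _ (Or.inl hw)

/-! ### The functional equation -/

/-- `Γ_ℂ cos` -/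
noncomputable def gc (κ : ℝ) (w : ℂ) : ℂ := Gammaℂ w * Complex.cos (Real.pi * (w - κ) / 2)

lemma conj_two : (starRingEnd ℂ) (2 : ℂ) = 2 := map_ofNat _ 2

lemma cpow_conj_pos {c : ℝ} (hc : 0 < c) (z : ℂ) :
    (starRingEnd ℂ) ((c : ℂ) ^ z) = (c : ℂ) ^ ((starRingEnd ℂ) z) := by
  have h := cpow_conj (c : ℂ) z (by
    rw [Complex.arg_ofReal_of_nonneg hc.le]
    exact Real.pi_pos.ne)
  rw [conj_ofReal] at h
  exact h.symm

lemma gc_conj (κ : ℝ) (w : ℂ) : (starRingEnd ℂ) (gc κ w) = gc κ ((starRingEnd ℂ) w) := by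
  unfold gc
  rw [map_mul, ← Complex.cos_conj, map_div₀, map_mul, map_sub, conj_ofReal, conj_ofReal, conj_two,
    Gammaℂ_def, Gammaℂ_def, map_mul, map_mul, conj_two, ← Complex.Gamma_conj]
  congr 3
  have h : (2 * (Real.pi : ℂ)) = ((2 * Real.pi : ℝ) : ℂ) := by push_cast; rfl
  rw [h, cpow_conj_pos (by positivity), map_neg]

lemma conj_ne {w : ℂ} (hw : w.im ≠ 0) : w ≠ 1 := by
  intro h
  rw [h] at hw
  simp at hw

theorem fe2 (π : PrimChar) : ∃ (ε : ℂ) (κ : ℝ), ‖ε‖ = 1 ∧ (κ = 0 ∨ κ = 1) ∧ ∀ w : ℂ, w.im ≠ 0 →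
    π.L w * gc κ w = ε * cexp ((1 / 2 - w) * Real.log π.q) * (bar π).L (1 - w) ∧
    (bar π).L w * gc κ w =
      (starRingEnd ℂ) ε * cexp ((1 / 2 - w) * Real.log π.q) * π.L (1 - w) := by
  obtain ⟨ε, κ, h1, h2, h3⟩ := Pool.Agent.H15.LI.lf π
  refine ⟨ε, κ, h1, h2, fun w hw => ⟨h3 w hw, ?_⟩⟩
  have hw' : ((starRingEnd ℂ) w).im ≠ 0 := by simpa using hw
  have h4 := congrArg (starRingEnd ℂ) (h3 _ hw')
  have e1 : (starRingEnd ℂ) (π.L ((starRingEnd ℂ) w)) = (bar π).L w := by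
    rw [← Lbar_conj π (conj_ne hw'), conj_conj]
  have e2 : (starRingEnd ℂ) ((bar π).L (1 - (starRingEnd ℂ) w)) = π.L (1 - w) := by
    have h5 : (1 - w) ≠ 1 := by
      intro h
      apply hw
      have := congrArg Complex.im h
      simpa using this
    have h6 := Lbar_conj π h5
    rw [map_sub, map_one] at h6
    rw [h6, conj_conj]
  have e3 := gc_conj κ ((starRingEnd ℂ) w)
  rw [conj_conj] at e3
  have e4 : (starRingEnd ℂ) (cexp ((1 / 2 - (starRingEnd ℂ) w) * Real.log π.q)) =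
      cexp ((1 / 2 - w) * Real.log π.q) := by
    rw [← Complex.exp_conj]
    congr 1
    rw [map_mul, map_sub, map_div₀, conj_ofReal, conj_two, map_one, conj_conj]
  change (starRingEnd ℂ) (π.L ((starRingEnd ℂ) w) * gc κ ((starRingEnd ℂ) w)) = _ at h4
  rw [map_mul, map_mul, map_mul, e1, e2, e3, e4] at h4
  exact h4


/-! ### Double sums -/

/-- the sum `∑ n^{-σ}` -/
noncomputable def Dz (σ : ℝ) : ℝ := ∑' n : ℕ, (n : ℝ) ^ (-σ)

lemma Dz_nonneg (σ : ℝ) : 0 ≤ Dz σ := tsum_nonneg fun n => by positivity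

lemma Dz_anti {σ σ' : ℝ} (h : 1 < σ) (h2 : σ ≤ σ') : Dz σ' ≤ Dz σ := by
  unfold Dz
  refine (summable_rpow (h.trans_le h2)).tsum_le_tsum (fun n => ?_) (summable_rpow h)
  rcases Nat.eq_zero_or_pos n with rfl | hn
  · rw [Nat.cast_zero, Real.zero_rpow (by linarith), Real.zero_rpow (by linarith)]
  · exact Real.rpow_le_rpow_of_exponent_le (by exact_mod_cast hn) (by linarith)

/-- the coefficients of the double sum -/
noncomputable def aa (π : PrimChar) (s t : ℝ) (p : ℕ × ℕ) : ℂ :=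
  co π p.1 * (starRingEnd ℂ) (co π p.2) * ((((p.1 : ℝ) * p.2) ^ (-s) : ℝ) : ℂ) *
    ei (t * (Real.log p.2 - Real.log p.1))

lemma SS_eq (π : PrimChar) (s ξ t : ℝ) :
    SS π s ξ t = ∑' p : ℕ × ℕ, aa π s t p * ((V ((p.1 : ℝ) * p.2 * ξ) : ℝ) : ℂ) := by
  unfold SS aa
  congr 1
  funext p
  push_cast
  ring

lemma norm_ei (x : ℝ) : ‖ei x‖ = 1 := by
  unfold ei
  rw [Complex.norm_exp_ofReal_mul_I]

lemma norm_aa_le (π : PrimChar) (s t : ℝ) (p : ℕ × ℕ) :
    ‖aa π s t p‖ ≤ ((p.1 : ℝ) * p.2) ^ (-s) := by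
  unfold aa
  rw [norm_mul, norm_mul, norm_mul, norm_ei, RCLike.norm_conj, mul_one, norm_real, Real.norm_eq_abs,
    abs_of_nonneg (by positivity)]
  have h1 := norm_co_le π p.1
  have h2 := norm_co_le π p.2
  have h3 : 0 ≤ ((p.1 : ℝ) * p.2) ^ (-s) := by positivity
  calc ‖co π p.1‖ * ‖co π p.2‖ * ((p.1 : ℝ) * p.2) ^ (-s) ≤ 1 * 1 * ((p.1 : ℝ) * p.2) ^ (-s) := by
        gcongr
    _ = _ := by ring

lemma aa_zero (π : PrimChar) (s t : ℝ) (p : ℕ × ℕ) (h : p.1 = 0 ∨ p.2 = 0) : aa π s t p = 0 := by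
  unfold aa
  rcases h with h | h <;> simp [h, co_zero]

lemma aa_or (π : PrimChar) (s ξ t : ℝ) (hξ : 0 < ξ) (p : ℕ × ℕ) :
    aa π s t p = 0 ∨ 0 < (p.1 : ℝ) * p.2 * ξ := by
  by_cases h1 : p.1 = 0
  · left; exact aa_zero π s t p (Or.inl h1)
  by_cases h2 : p.2 = 0
  · left; exact aa_zero π s t p (Or.inr h2)
  right
  have h3 : (0 : ℝ) < p.1 := by positivity
  have h4 : (0 : ℝ) < p.2 := by positivity
  positivity

lemma norm_aa_mul_le (π : PrimChar) (s ξ t c : ℝ) (hξ : 0 < ξ) (p : ℕ × ℕ) :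
    ‖aa π s t p‖ * ((p.1 : ℝ) * p.2 * ξ) ^ (-c) ≤
      ξ ^ (-c) * ((p.1 : ℝ) ^ (-(s + c)) * (p.2 : ℝ) ^ (-(s + c))) := by
  by_cases h1 : p.1 = 0
  · rw [aa_zero π s t p (Or.inl h1), norm_zero, zero_mul]
    positivity
  by_cases h2 : p.2 = 0
  · rw [aa_zero π s t p (Or.inr h2), norm_zero, zero_mul]
    positivity
  have h3 : (0 : ℝ) < p.1 := by positivity
  have h4 : (0 : ℝ) < p.2 := by positivity
  calc ‖aa π s t p‖ * ((p.1 : ℝ) * p.2 * ξ) ^ (-c)
      ≤ ((p.1 : ℝ) * p.2) ^ (-s) * ((p.1 : ℝ) * p.2 * ξ) ^ (-c) := by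
        have := norm_aa_le π s t p
        gcongr
    _ = _ := by
        rw [Real.mul_rpow (by positivity) hξ.le, ← mul_assoc, ← Real.rpow_add (by positivity),
          Real.mul_rpow h3.le h4.le, ← neg_add]
        ring

lemma summable_aa (π : PrimChar) (s ξ t c : ℝ) (hξ : 0 < ξ) (hs : 1 < s + c) :
    (Summable fun p : ℕ × ℕ => ‖aa π s t p‖ * ((p.1 : ℝ) * p.2 * ξ) ^ (-c)) ∧
      ∑' p : ℕ × ℕ, ‖aa π s t p‖ * ((p.1 : ℝ) * p.2 * ξ) ^ (-c) ≤ ξ ^ (-c) * Dz (s + c) ^ 2 := by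
  have h0 := summable_rpow hs
  have h1 : Summable fun p : ℕ × ℕ => (p.1 : ℝ) ^ (-(s + c)) * (p.2 : ℝ) ^ (-(s + c)) :=
    h0.mul_of_nonneg h0 (fun _ => by positivity) (fun _ => by positivity)
  have h2 : Summable fun p : ℕ × ℕ => ‖aa π s t p‖ * ((p.1 : ℝ) * p.2 * ξ) ^ (-c) :=
    Summable.of_nonneg_of_le (fun p => by positivity) (norm_aa_mul_le π s ξ t c hξ)
      (h1.mul_left _)
  refine ⟨h2, ?_⟩
  calc _ ≤ ∑' p : ℕ × ℕ, ξ ^ (-c) * ((p.1 : ℝ) ^ (-(s + c)) * (p.2 : ℝ) ^ (-(s + c))) :=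
        h2.tsum_le_tsum (norm_aa_mul_le π s ξ t c hξ) (h1.mul_left _)
    _ = ξ ^ (-c) * Dz (s + c) ^ 2 := by
        rw [tsum_mul_left, sq]
        congr 1
        exact (h0.tsum_mul_tsum h0 h1).symm

/-- the double sum is a product of two `L`-values -/
lemma prodL (π : PrimChar) (s ξ t : ℝ) (z : ℂ) (hξ : 0 < ξ) (hs : 1 < s + z.re) :
    ∑' p : ℕ × ℕ, aa π s t p * cexp (-z * Real.log ((p.1 : ℝ) * p.2 * ξ)) =
      cexp (-z * Real.log ξ) * (π.L (s + z + t * I) * (bar π).L (s + z - t * I)) := by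
  have hw1 : 1 < ((s : ℂ) + z + t * I).re := by simpa using hs
  have hw2 : 1 < ((s : ℂ) + z - t * I).re := by simpa using hs
  have e : ∀ p : ℕ × ℕ, aa π s t p * cexp (-z * Real.log ((p.1 : ℝ) * p.2 * ξ)) =
      cexp (-z * Real.log ξ) * ((co π p.1 * cexp (-((s : ℂ) + z + t * I) * Real.log p.1)) *
        ((starRingEnd ℂ) (co π p.2) * cexp (-((s : ℂ) + z - t * I) * Real.log p.2))) := by
    intro p
    by_cases h1 : p.1 = 0
    · rw [aa_zero π s t p (Or.inl h1), h1, co_zero]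
      ring
    by_cases h2 : p.2 = 0
    · rw [aa_zero π s t p (Or.inr h2), h2, co_zero, map_zero]
      ring
    have h3 : (0 : ℝ) < p.1 := by positivity
    have h4 : (0 : ℝ) < p.2 := by positivity
    have h5 : cexp (-z * Real.log ξ) * ((co π p.1 * cexp (-((s : ℂ) + z + t * I) * Real.log p.1)) *
        ((starRingEnd ℂ) (co π p.2) * cexp (-((s : ℂ) + z - t * I) * Real.log p.2))) =
        co π p.1 * (starRingEnd ℂ) (co π p.2) *
          (cexp (-z * Real.log ξ) * cexp (-((s : ℂ) + z + t * I) * Real.log p.1) *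
            cexp (-((s : ℂ) + z - t * I) * Real.log p.2)) := by ring
    rw [h5]
    unfold aa ei
    rw [mul_assoc, mul_assoc]
    congr 1
    rw [Real.rpow_def_of_pos (by positivity), ofReal_exp, ← Complex.exp_add, ← Complex.exp_add,
      ← Complex.exp_add, ← Complex.exp_add, Real.log_mul (by positivity) hξ.ne',
      Real.log_mul h3.ne' h4.ne']
    congr 1
    push_cast
    ring
  simp only [e]
  rw [tsum_mul_left, ← L_series π hw1, ← Lbar_series π hw2]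
  congr 1
  exact (tsum_mul_tsum_of_summable_norm (summable_L π hw1) (summable_L' π hw2)).symm

end Pool.Agent.H58.MZ
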