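import Pool.Agent.H28.MZ.Targets
import Pool.Agent.Ratios.Contour

/-!
# Common lemmas for the smooth sums.  helper58
-/

set_option autoImplicit false

open Complex MeasureTheory Set Filter Topology

namespace Pool.Agent.H58.MZ

open Pool.Agent.H28.MZ

/-- the kernel -/
noncomputable def ker (c v : ℝ) : ℂ := cexp ((c + v * I) ^ 2) / (c + v * I)

lemma ne_zero_of_re {c : ℝ} (hc : c ≠ 0) (v : ℝ) : (c : ℂ) + v * I ≠ 0 := by
  intro h
  apply hc
  have := congrArg Complex.re h
  simpa using this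

lemma norm_cexp_sq (c v : ℝ) : ‖cexp (((c : ℂ) + v * I) ^ 2)‖ = Real.exp (c ^ 2 - v ^ 2) := by
  rw [Complex.norm_exp]
  congr 1
  rw [sq]
  simp
  ring

lemma abs_le_norm_line (c v : ℝ) : |c| ≤ ‖(c : ℂ) + v * I‖ := by
  have := Complex.abs_re_le_norm ((c : ℂ) + v * I)
  simpa using this

lemma norm_ker_le (c v : ℝ) (hc : c ≠ 0) :
    ‖ker c v‖ ≤ Real.exp (c ^ 2) / |c| * Real.exp (-v ^ 2) := by
  rw [ker, norm_div, norm_cexp_sq, sub_eq_add_neg, Real.exp_add]
  have h1 := abs_le_norm_line c v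
  have h2 : 0 < |c| := abs_pos.mpr hc
  calc Real.exp (c ^ 2) * Real.exp (-v ^ 2) / ‖(c : ℂ) + v * I‖
      ≤ Real.exp (c ^ 2) * Real.exp (-v ^ 2) / |c| := by gcongr
    _ = _ := by ring

lemma continuous_ker (c : ℝ) (hc : c ≠ 0) : Continuous (ker c) := by
  unfold ker
  exact Continuous.div (by fun_prop) (by fun_prop) (ne_zero_of_re hc)

lemma integrable_gauss : Integrable (fun v : ℝ => Real.exp (-v ^ 2)) := by
  have := integrable_exp_neg_mul_sq (b := 1) one_pos
  simpa using this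

lemma integral_gauss : ∫ v : ℝ, Real.exp (-v ^ 2) = Real.sqrt Real.pi := by
  have := integral_gaussian 1
  simpa using this

lemma integrable_ker (c : ℝ) (hc : c ≠ 0) : Integrable (ker c) := by
  refine (integrable_gauss.const_mul (Real.exp (c ^ 2) / |c|)).mono'
    (continuous_ker c hc).aestronglyMeasurable ?_
  exact Eventually.of_forall fun v => norm_ker_le c v hc

lemma norm_cpow_line {x : ℝ} (hx : 0 < x) (c v : ℝ) :
    ‖cexp (-((c : ℂ) + v * I) * Real.log x)‖ = x ^ (-c) := by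
  rw [Complex.norm_exp, Real.rpow_def_of_pos hx]
  congr 1
  simp
  ring

/-- Mellin representation of smooth sums. -/
lemma mellin_sum (hV : T_VV) {ι : Type} [Countable ι] (a : ι → ℂ) (x : ι → ℝ) (c : ℝ) (hc : 0 < c)
    (hx : ∀ i, a i = 0 ∨ 0 < x i) (hs : Summable fun i => ‖a i‖ * (x i) ^ (-c)) :
    Summable (fun i => a i * ((V (x i) : ℝ) : ℂ)) ∧
    (∀ v : ℝ, Summable fun i => a i * cexp (-((c : ℂ) + v * I) * Real.log (x i))) ∧
    (∀ v : ℝ, ‖∑' i, a i * cexp (-((c : ℂ) + v * I) * Real.log (x i))‖ ≤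
      ∑' i, ‖a i‖ * (x i) ^ (-c)) ∧
    Continuous (fun v : ℝ => ∑' i, a i * cexp (-((c : ℂ) + v * I) * Real.log (x i))) ∧
    ∑' i, a i * ((V (x i) : ℝ) : ℂ) = (1 / (2 * Real.pi) : ℝ) *
      ∫ v : ℝ, (∑' i, a i * cexp (-((c : ℂ) + v * I) * Real.log (x i))) * ker c v := by
  have hnorm : ∀ i (v : ℝ), ‖a i * cexp (-((c : ℂ) + v * I) * Real.log (x i))‖ ≤
      ‖a i‖ * (x i) ^ (-c) := by
    intro i v
    rcases hx i with h | h
    · simp [h]
    · rw [norm_mul, norm_cpow_line h]
  have hsum : ∀ v : ℝ, Summable fun i => a i * cexp (-((c : ℂ) + v * I) * Real.log (x i)) :=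
    fun v => Summable.of_norm_bounded hs fun i => hnorm i v
  have hcont : Continuous (fun v : ℝ => ∑' i, a i * cexp (-((c : ℂ) + v * I) * Real.log (x i))) :=
    continuous_tsum (fun i => by fun_prop) hs hnorm
  set F : ι → ℝ → ℂ := fun i v => a i * cexp (-((c : ℂ) + v * I) * Real.log (x i)) * ker c v
    with hF
  have hFint : ∀ i, Integrable (F i) := by
    intro i
    refine ((integrable_ker c hc.ne').norm.const_mul (‖a i‖ * (x i) ^ (-c))).mono'
      (Continuous.aestronglyMeasurable ?_) (Eventually.of_forall fun v => ?_)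
    · exact Continuous.mul (by fun_prop) (continuous_ker c hc.ne')
    · simp only [hF]
      rw [norm_mul]
      exact mul_le_mul_of_nonneg_right (hnorm i v) (norm_nonneg _)
  have hFsum : Summable fun i => ∫ v : ℝ, ‖F i v‖ := by
    refine Summable.of_nonneg_of_le (fun i => integral_nonneg fun v => norm_nonneg _)
      (fun i => ?_) (hs.mul_right (∫ v : ℝ, ‖ker c v‖))
    rw [← integral_const_mul]
    apply integral_mono (hFint i).norm ((integrable_ker c hc.ne').norm.const_mul _)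
    intro v
    simp only [hF]
    rw [norm_mul]
    exact mul_le_mul_of_nonneg_right (hnorm i v) (norm_nonneg _)
  have hint : ∀ i, ∫ v : ℝ, F i v = (2 * Real.pi : ℝ) * (a i * ((V (x i) : ℝ) : ℂ)) := by
    intro i
    rcases hx i with h | h
    · simp [hF, h]
    · have h1 := (hV.2.2.2.2 c (x i) hc h).2
      have h2 : ∫ v : ℝ, F i v = a i * ∫ v : ℝ, cexp (-(c + v * I) * Real.log (x i)) *
          cexp ((c + v * I) ^ 2) / (c + v * I) := by
        rw [← integral_const_mul]
        congr 1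
        funext v
        simp only [hF, ker]
        ring
      rw [h2, h1]
      have hpi : (Real.pi : ℂ) ≠ 0 := ofReal_ne_zero.mpr Real.pi_pos.ne'
      generalize (∫ v : ℝ, cexp (-(c + v * I) * Real.log (x i)) *
          cexp ((c + v * I) ^ 2) / (c + v * I)) = J
      push_cast
      field_simp
  have hpi : (Real.pi : ℂ) ≠ 0 := ofReal_ne_zero.mpr Real.pi_pos.ne'
  have hmain := hasSum_integral_of_summable_integral_norm hFint hFsum
  simp only [hint] at hmain
  have h3 : HasSum (fun i => a i * ((V (x i) : ℝ) : ℂ))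
      (((1 / (2 * Real.pi) : ℝ) : ℂ) * ∫ v : ℝ, ∑' i, F i v) := by
    have := hmain.mul_left (((1 / (2 * Real.pi) : ℝ) : ℂ))
    have e : (fun i => ((1 / (2 * Real.pi) : ℝ) : ℂ) * (((2 * Real.pi : ℝ) : ℂ) *
        (a i * ((V (x i) : ℝ) : ℂ)))) = fun i => a i * ((V (x i) : ℝ) : ℂ) := by
      funext i
      push_cast
      field_simp
    rwa [e] at this
  refine ⟨h3.summable, hsum, ?_, hcont, ?_⟩
  · intro v
    have h4 : Summable fun i => ‖a i * cexp (-((c : ℂ) + v * I) * Real.log (x i))‖ :=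
      Summable.of_nonneg_of_le (fun i => norm_nonneg _) (fun i => hnorm i v) hs
    exact (norm_tsum_le_tsum_norm h4).trans (h4.tsum_le_tsum (fun i => hnorm i v) hs)
  · rw [h3.tsum_eq]
    congr 2
    funext v
    simp only [hF]
    rw [tsum_mul_right]

lemma line_integrable (F : ℂ → ℂ) (c M : ℝ) (p : ℂ) (hF : Continuous (fun t : ℝ => F (c + t * I)))
    (hb : ∀ t : ℝ, ‖F (c + t * I)‖ ≤ M * Real.exp (-|t|)) (hc : c ≠ p.re) :
    Integrable (fun t : ℝ => F (c + t * I) / (c + t * I - p)) := by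
  have hne : ∀ t : ℝ, (c : ℂ) + t * I - p ≠ 0 := by
    intro t h
    apply hc
    have := congrArg Complex.re h
    simp at this
    linarith
  have hcont : Continuous (fun t : ℝ => F (c + t * I) / (c + t * I - p)) :=
    hF.div (by fun_prop) hne
  refine (((Pool.Agent.Ratios.integrable_exp_neg_mul_abs 1 one_pos).const_mul
    (M / |c - p.re|))).mono' hcont.aestronglyMeasurable ?_
  filter_upwards with t
  rw [norm_div, one_mul]
  have hpos : 0 < |c - p.re| := abs_pos.mpr (sub_ne_zero.mpr hc)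
  have h4 : |c - p.re| ≤ ‖(c : ℂ) + t * I - p‖ := by
    have := Complex.abs_re_le_norm ((c : ℂ) + t * I - p)
    simpa using this
  have h5 := hb t
  have h0 : 0 ≤ M * Real.exp (-|t|) := (norm_nonneg _).trans h5
  calc ‖F (c + t * I)‖ / ‖(c : ℂ) + t * I - p‖ ≤ (M * Real.exp (-|t|)) / |c - p.re| := by
        gcongr
    _ = _ := by ring

/-- polynomial growth is at most exponential growth -/
lemma rpow_le_exp (C : ℝ) : ∃ K : ℝ, 0 < K ∧ ∀ y : ℝ, 0 ≤ y → (1 + y) ^ C ≤ K * Real.exp y := by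
  obtain ⟨n, hn⟩ := exists_nat_ge C
  refine ⟨(n.factorial : ℝ) * Real.exp 1, by positivity, ?_⟩
  intro y hy
  have h1 : (1 : ℝ) ≤ 1 + y := by linarith
  have h2 := Real.pow_div_factorial_le_exp (1 + y) (by linarith) n
  have h3 : (0 : ℝ) < n.factorial := by positivity
  rw [div_le_iff₀ h3] at h2
  calc (1 + y) ^ C ≤ (1 + y) ^ (n : ℝ) := Real.rpow_le_rpow_of_exponent_le h1 hn
    _ = (1 + y) ^ n := Real.rpow_natCast _ _
    _ ≤ Real.exp (1 + y) * n.factorial := h2
    _ = _ := by rw [Real.exp_add]; ring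

end Pool.Agent.H58.MZ
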