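import Pool.Agent.H58.MZ.Base
import Pool.Agent.H33.LI.PB
import Pool.Agent.H15.LI.LF

/-!
# The zeta function without Euler factors: the entire part.  helper58
-/

set_option autoImplicit false

open Complex MeasureTheory Set Filter Topology

namespace Pool.Agent.H58.MZ

open Pool.Agent.H28.MZ
open Pool.Agent.H23.GLH (PrimChar)
open DirichletCharacter (LFunctionTrivChar LFunctionTrivChar₁)

/-- the trivial character -/
noncomputable def triv : PrimChar := ⟨1, inferInstance, 1, DirichletCharacter.isPrimitive_one_level_one⟩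

lemma triv_L (s : ℂ) : triv.L s = riemannZeta s := by
  unfold PrimChar.L triv
  simp only
  rw [DirichletCharacter.LFunction_modOne_eq]

theorem poly : Pool.Agent.H74.LI.T_poly := Pool.Agent.H33.LI.pb Pool.Agent.H15.LI.lf

/-- the residue -/
noncomputable def rq (q : ℕ) : ℝ := (Nat.totient q : ℝ) / q

lemma rq_eq (q : ℕ) (hq : 1 ≤ q) : (∏ p ∈ q.primeFactors, (1 - (p : ℂ)⁻¹)) = ((rq q : ℝ) : ℂ) := by
  have h := Nat.totient_eq_mul_prod_factors q
  have hq0 : (q : ℂ) ≠ 0 := by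
    have : q ≠ 0 := by omega
    exact_mod_cast this
  have h2 : ((q.totient : ℚ) : ℂ) = ((q : ℚ) : ℂ) * ((∏ p ∈ q.primeFactors, (1 - (p : ℚ)⁻¹) : ℚ) : ℂ) := by
    rw [← Rat.cast_mul, ← h]
  rw [rq]
  push_cast at h2 ⊢
  rw [h2]
  field_simp

lemma rq_nonneg (q : ℕ) : 0 ≤ rq q := by unfold rq; positivity

lemma rq_le_one (q : ℕ) (hq : 1 ≤ q) : rq q ≤ 1 := by
  unfold rq
  have : (0 : ℝ) < q := by exact_mod_cast hq
  rw [div_le_one this]
  exact_mod_cast Nat.totient_le q

/-- the entire function `Z(w) - f/(w-1)` -/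
noncomputable def hq (q : ℕ) [NeZero q] : ℂ → ℂ := dslope (LFunctionTrivChar₁ q) 1

lemma differentiable_hq (q : ℕ) [NeZero q] : Differentiable ℂ (hq q) := by
  have h1 : Differentiable ℂ (LFunctionTrivChar₁ q) :=
    DirichletCharacter.differentiable_LFunctionTrivChar₁ q
  have h2 := (Complex.differentiableOn_dslope (f := LFunctionTrivChar₁ q) (s := univ) (c := 1)
    univ_mem).mpr h1.differentiableOn
  rwa [differentiableOn_univ] at h2

lemma hq_eq (q : ℕ) [NeZero q] (w : ℂ) (hw : w ≠ 1) :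
    hq q w = LFunctionTrivChar q w - (rq q : ℝ) / (w - 1) := by
  have hq1 : 1 ≤ q := Nat.one_le_iff_ne_zero.mpr (NeZero.ne q)
  have hw' : w - 1 ≠ 0 := sub_ne_zero.mpr hw
  rw [hq, dslope_of_ne _ hw, slope_def_field]
  rw [LFunctionTrivChar₁, Function.update_of_ne hw, Function.update_self, rq_eq q hq1]
  field_simp

lemma prod_bound (q : ℕ) (B : ℝ) : ∃ K : ℝ, 0 < K ∧ ∀ w : ℂ, -B ≤ w.re →
    ‖∏ p ∈ q.primeFactors, (1 - (p : ℂ) ^ (-w))‖ ≤ K := by
  refine ⟨∏ p ∈ q.primeFactors, (1 + (p : ℝ) ^ B), ?_, ?_⟩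
  · apply Finset.prod_pos
    intro p _
    positivity
  · intro w hw
    rw [norm_prod]
    apply Finset.prod_le_prod (fun _ _ => norm_nonneg _)
    intro p hp
    have hp1 : 1 ≤ p := (Nat.prime_of_mem_primeFactors hp).one_le
    have hp0 : (0 : ℝ) < p := by exact_mod_cast hp1
    calc ‖1 - (p : ℂ) ^ (-w)‖ ≤ ‖(1 : ℂ)‖ + ‖(p : ℂ) ^ (-w)‖ := norm_sub_le _ _
      _ ≤ 1 + (p : ℝ) ^ B := by
        rw [norm_one]
        have h1 : ‖(p : ℂ) ^ (-w)‖ = (p : ℝ) ^ (-w.re) := by
          rw [← ofReal_natCast, norm_cpow_eq_rpow_re_of_pos hp0]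
          simp
        rw [h1]
        have h2 : (p : ℝ) ^ (-w.re) ≤ (p : ℝ) ^ B :=
          Real.rpow_le_rpow_of_exponent_le (by exact_mod_cast hp1) (by linarith)
        linarith

lemma hq_bound (q : ℕ) [NeZero q] (B : ℝ) : ∃ K : ℝ, 0 < K ∧ ∀ w : ℂ, -B ≤ w.re → w.re ≤ B →
    ‖hq q w‖ ≤ K * Real.exp |w.im| := by
  have hq1 : 1 ≤ q := Nat.one_le_iff_ne_zero.mpr (NeZero.ne q)
  obtain ⟨C, hC, hpoly⟩ := poly triv B
  obtain ⟨K1, hK1, hexp⟩ := rpow_le_exp C
  obtain ⟨K2, hK2, hprod⟩ := prod_bound q B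
  have hcomp : IsCompact ((fun w : ℂ => w.re) ⁻¹' Icc (-B) B ∩ (fun w : ℂ => w.im) ⁻¹' Icc (-1) 1) := by
    have := (isCompact_Icc (a := -B) (b := B)).reProdIm (isCompact_Icc (a := (-1 : ℝ)) (b := 1))
    exact this
  obtain ⟨K3, hK3⟩ := hcomp.exists_bound_of_continuousOn (differentiable_hq q).continuous.continuousOn
  have hpos : 0 < K2 * (C * K1) + rq q + |K3| + 1 := by
    have := rq_nonneg q
    positivity
  refine ⟨K2 * (C * K1) + rq q + |K3| + 1, hpos, ?_⟩
  intro w h1 h2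
  have hE : 1 ≤ Real.exp |w.im| := Real.one_le_exp (abs_nonneg _)
  have hr := rq_nonneg q
  rcases le_or_gt |w.im| 1 with h | h
  · have h3 := hK3 w ⟨⟨h1, h2⟩, abs_le.mp h⟩
    calc ‖hq q w‖ ≤ K3 := h3
      _ ≤ |K3| := le_abs_self _
      _ ≤ (K2 * (C * K1) + rq q + |K3| + 1) * 1 := by
        have : 0 ≤ K2 * (C * K1) := by positivity
        linarith
      _ ≤ _ := by gcongr
  · have hw : w ≠ 1 := by
      rintro rfl
      simp at h
      linarith
    rw [hq_eq q w hw]
    have h4 : ‖LFunctionTrivChar q w‖ ≤ K2 * (C * K1) * Real.exp |w.im| := by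
      rw [DirichletCharacter.LFunctionTrivChar_eq_mul_riemannZeta hw, norm_mul, ← triv_L]
      calc _ ≤ K2 * (C * (1 + |w.im|) ^ C) := by
            have := hprod w h1
            have := hpoly w h1 h.le
            gcongr
        _ ≤ K2 * (C * (K1 * Real.exp |w.im|)) := by
            have := hexp |w.im| (abs_nonneg _)
            gcongr
        _ = _ := by ring
    have h5 : ‖((rq q : ℝ) : ℂ) / (w - 1)‖ ≤ rq q * Real.exp |w.im| := by
      rw [norm_div, norm_real, Real.norm_eq_abs, abs_of_nonneg hr]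
      have h6 : 1 ≤ ‖w - 1‖ := by
        have := Complex.abs_im_le_norm (w - 1)
        simp at this
        linarith
      calc rq q / ‖w - 1‖ ≤ rq q / 1 := by gcongr
        _ = rq q * 1 := by ring
        _ ≤ _ := by gcongr
    calc _ ≤ _ := norm_sub_le _ _
      _ ≤ K2 * (C * K1) * Real.exp |w.im| + rq q * Real.exp |w.im| := add_le_add h4 h5
      _ ≤ (K2 * (C * K1) + rq q + |K3| + 1) * Real.exp |w.im| := by
        have h7 : 0 ≤ (|K3| + 1) * Real.exp |w.im| := by positivity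
        linarith

lemma zq_eq (q : ℕ) [NeZero q] (x : ℝ) (hx : x ≠ 1) :
    zq q x = (LFunctionTrivChar q (x : ℂ)).re := by
  have hx' : (x : ℂ) ≠ 1 := by exact_mod_cast hx
  rw [zq, DirichletCharacter.LFunctionTrivChar_eq_mul_riemannZeta hx', mul_comm]

open scoped Classical in
/-- the Dirichlet series -/
lemma series (q : ℕ) [NeZero q] (w : ℂ) (hw : 1 < w.re) :
    ∑' l : ℕ, (if 1 ≤ l ∧ Nat.Coprime l q then cexp (-w * Real.log l) else 0) =
      LFunctionTrivChar q w := by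
  rw [DirichletCharacter.LFunctionTrivChar, DirichletCharacter.LFunction_eq_LSeries _ hw, LSeries]
  congr 1
  funext l
  rw [LSeries.term_def]
  by_cases hl : l = 0
  · simp [hl]
  · have hl1 : 1 ≤ l := Nat.one_le_iff_ne_zero.mpr hl
    rw [if_neg hl]
    by_cases hc : Nat.Coprime l q
    · rw [if_pos ⟨hl1, hc⟩]
      have hu : IsUnit (l : ZMod q) := (ZMod.isUnit_iff_coprime l q).mpr hc
      rw [MulChar.one_apply hu, cpow_def_of_ne_zero (by exact_mod_cast hl), one_div,
        ← Complex.exp_neg, ← natCast_log]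
      congr 1
      push_cast
      ring
    · rw [if_neg (fun h => hc h.2)]
      have hu : ¬ IsUnit (l : ZMod q) := fun h => hc ((ZMod.isUnit_iff_coprime l q).mp h)
      rw [MulChar.map_nonunit _ hu, zero_div]

end Pool.Agent.H58.MZ
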